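import Mathlib

/-!
Definitions for the continuous graph of a finite simple graph, its path metric, its closed balls
and its `r`-chromatic number.
-/

namespace Pool.Agent.MP_4befb3_co

variable {V : Type*} [DecidableEq V]

/-- The vertex `v`, as a point of the continuous graph (barycentric coordinates). -/
def vertexPt (v : V) : V → ℝ := fun w => if w = v then 1 else 0

/-- The point at distance `t` from `u` on the unit segment that replaces the edge `uv`:
the function `(1 - t) δ_u + t δ_v` on the vertex set. For `t = 0` it is `u`, for `t = 1` it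
is `v`, and `edgePt u v t = edgePt v u (1 - t)`. -/
def edgePt (u v : V) (t : ℝ) : V → ℝ :=
  fun w => (1 - t) * vertexPt u w + t * vertexPt v w

/-- The continuous graph of `G`: all vertices of `G` and all points of the unit segments that
replace the edges of `G` (endpoints of segments are identified with the vertices). -/
def contGraph (G : SimpleGraph V) : Set (V → ℝ) :=
  {x | (∃ v : V, x = vertexPt v) ∨
    ∃ (u v : V) (t : ℝ), G.Adj u v ∧ 0 ≤ t ∧ t ≤ 1 ∧ x = edgePt u v t}

/-- `PathLen G p q l`: inside the continuous graph of `G` there is a path of length `l` from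
`p` to `q` that runs through finitely many segment pieces, each inside one edge. -/
inductive PathLen (G : SimpleGraph V) : (V → ℝ) → (V → ℝ) → ℝ → Prop
  | refl (p : V → ℝ) (hp : p ∈ contGraph G) : PathLen G p p 0
  | step (p : V → ℝ) (u v : V) (s t l : ℝ) (huv : G.Adj u v) (hs : 0 ≤ s ∧ s ≤ 1)
      (ht : 0 ≤ t ∧ t ≤ 1) (h : PathLen G p (edgePt u v s) l) :
      PathLen G p (edgePt u v t) (l + |t - s|)

/-- The distance between two points: the infimum of the lengths of the paths joining them
(`∞` if there is none). -/
noncomputable def pathDist (G : SimpleGraph V) (p q : V → ℝ) : ENNReal :=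
  ⨅ (l : ℝ) (_ : PathLen G p q l), ENNReal.ofReal l

/-- The closed ball of radius `r` about `p` in the continuous graph of `G`. -/
def cBall (G : SimpleGraph V) (p : V → ℝ) (r : ℝ) : Set (V → ℝ) :=
  {q | q ∈ contGraph G ∧ pathDist G p q ≤ ENNReal.ofReal r}

/-- The continuous graph of `G` is `(r, c)`-colourable: some family of closed balls of radius
`r` covers it and can be coloured with `c` colours so that two different balls that meet get
different colours. -/
def IsColourable (G : SimpleGraph V) (r : ℝ) (c : ℕ) : Prop :=
  ∃ ℬ : Set (Set (V → ℝ)),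
    (∀ B ∈ ℬ, ∃ p ∈ contGraph G, B = cBall G p r) ∧
    ⋃₀ ℬ = contGraph G ∧
    ∃ f : ℬ → Fin c, ∀ B B' : ℬ, B ≠ B' →
      ((B : Set (V → ℝ)) ∩ (B' : Set (V → ℝ))).Nonempty → f B ≠ f B'

/-- The `r`-chromatic number of the continuous graph of `G`: the least `c` for which it is
`(r, c)`-colourable. -/
noncomputable def rChromatic (G : SimpleGraph V) (r : ℝ) : ℕ :=
  sInf {c : ℕ | IsColourable G r c}

end Pool.Agent.MP_4befb3_co
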