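import Mathlib
import Pool.Agent.Lib.MP_4befb3_co.Defs

/-!
The closed balls of radius `1/2` in the continuous complete graph.
-/

namespace Pool.Agent.MP_4befb3_co

variable {V : Type*} [DecidableEq V]

/-! ### Elementary facts on points -/

lemma edgePt_left {u v : V} (h : u ≠ v) (t : ℝ) : edgePt u v t u = 1 - t := by
  simp [edgePt, vertexPt, h]

lemma edgePt_right {u v : V} (h : u ≠ v) (t : ℝ) : edgePt u v t v = t := by
  simp [edgePt, vertexPt, h.symm]

lemma edgePt_other {u v w : V} (hu : w ≠ u) (hv : w ≠ v) (t : ℝ) : edgePt u v t w = 0 := by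
  simp [edgePt, vertexPt, hu, hv]

lemma edgePt_swap (u v : V) (t : ℝ) : edgePt u v t = edgePt v u (1 - t) := by
  funext w
  simp only [edgePt]
  ring

lemma edgePt_zero (u v : V) : edgePt u v 0 = vertexPt u := by
  funext w
  simp [edgePt]

lemma edgePt_one (u v : V) : edgePt u v 1 = vertexPt v := by
  funext w
  simp [edgePt]

lemma vertexPt_inj {u v : V} (h : vertexPt u = vertexPt v) : u = v := by
  by_contra hne
  have := congrFun h u
  simp [vertexPt, hne] at this

lemma edgePt_mem {u v : V} (h : u ≠ v) {t : ℝ} (h0 : 0 ≤ t) (h1 : t ≤ 1) :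
    edgePt u v t ∈ contGraph (⊤ : SimpleGraph V) :=
  Or.inr ⟨u, v, t, by simpa using h, h0, h1, rfl⟩

lemma vertexPt_mem (v : V) : vertexPt v ∈ contGraph (⊤ : SimpleGraph V) := Or.inl ⟨v, rfl⟩

/-- If two edge points agree, with the first one interior, the edges agree. -/
lemma edgePt_eq_cases {x y u v : V} (hxy : x ≠ y) (huv : u ≠ v) {s t : ℝ} (hs0 : 0 < s)
    (hs1 : s < 1) (h : edgePt x y s = edgePt u v t) :
    (x = u ∧ y = v ∧ s = t) ∨ (x = v ∧ y = u ∧ s = 1 - t) := by
  have hx := congrFun h x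
  have hy := congrFun h y
  rw [edgePt_left hxy] at hx
  rw [edgePt_right hxy] at hy
  by_cases hxu : x = u
  · subst hxu
    rw [edgePt_left huv] at hx
    by_cases hyv : y = v
    · subst hyv
      left
      exact ⟨rfl, rfl, by linarith⟩
    · rw [edgePt_other (Ne.symm hxy) hyv] at hy
      linarith
  · by_cases hxv : x = v
    · subst hxv
      rw [edgePt_right huv] at hx
      by_cases hyu : y = u
      · subst hyu
        right
        exact ⟨rfl, rfl, by linarith⟩
      · rw [edgePt_other hyu (Ne.symm hxy)] at hy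
        linarith
    · rw [edgePt_other hxu hxv] at hx
      linarith

/-! ### The distance function from a point -/

/-- A function that is at most the distance from `edgePt u v t`. -/
noncomputable def phi (u v : V) (t : ℝ) (q : V → ℝ) : ℝ :=
  if q u + q v = 1 then |q v - t| else min (t + 1 - q u) (2 - t - q v)

lemma phi_uv {u v : V} (h : u ≠ v) (t s : ℝ) : phi u v t (edgePt u v s) = |s - t| := by
  simp [phi, edgePt_left h, edgePt_right h]

lemma phi_vu {u v : V} (h : u ≠ v) (t s : ℝ) : phi u v t (edgePt v u s) = |1 - s - t| := by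
  rw [edgePt_swap, phi_uv h]

lemma phi_ux {u v x : V} (h : u ≠ v) (hxu : x ≠ u) (hxv : x ≠ v) {t s : ℝ} (ht0 : 0 ≤ t)
    (ht : t ≤ 1 / 2) (hs1 : s ≤ 1) : phi u v t (edgePt u x s) = t + s := by
  have h1 : edgePt u x s u = 1 - s := edgePt_left (Ne.symm hxu) s
  have h2 : edgePt u x s v = 0 := edgePt_other (Ne.symm h) (Ne.symm hxv) s
  unfold phi
  rw [h1, h2]
  split_ifs with hc
  · have : s = 0 := by linarith
    subst this
    rw [zero_sub, abs_neg, abs_of_nonneg ht0]
    ring
  · rw [min_eq_left (by linarith)]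
    ring

lemma phi_xu {u v x : V} (h : u ≠ v) (hxu : x ≠ u) (hxv : x ≠ v) {t s : ℝ} (ht0 : 0 ≤ t)
    (ht : t ≤ 1 / 2) (hs0 : 0 ≤ s) : phi u v t (edgePt x u s) = t + (1 - s) := by
  rw [edgePt_swap, phi_ux h hxu hxv ht0 ht (by linarith)]

lemma phi_vx {u v x : V} (h : u ≠ v) (hxu : x ≠ u) (hxv : x ≠ v) {t s : ℝ} (ht0 : 0 ≤ t)
    (ht : t ≤ 1 / 2) : phi u v t (edgePt v x s) = min (t + 1) (1 - t + s) := by
  have h1 : edgePt v x s u = 0 := edgePt_other h (Ne.symm hxu) s
  have h2 : edgePt v x s v = 1 - s := edgePt_left (Ne.symm hxv) s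
  unfold phi
  rw [h1, h2]
  split_ifs with hc
  · have : s = 0 := by linarith
    subst this
    rw [min_eq_right (by linarith), abs_of_nonneg (by linarith)]
    ring
  · congr 1
    · ring
    · ring

lemma phi_xv {u v x : V} (h : u ≠ v) (hxu : x ≠ u) (hxv : x ≠ v) {t s : ℝ} (ht0 : 0 ≤ t)
    (ht : t ≤ 1 / 2) : phi u v t (edgePt x v s) = min (t + 1) (1 - t + (1 - s)) := by
  rw [edgePt_swap, phi_vx h hxu hxv ht0 ht]

lemma phi_xy {u v x y : V} (hxu : x ≠ u) (hxv : x ≠ v) (hyu : y ≠ u)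
    (hyv : y ≠ v) {t s : ℝ} (ht : t ≤ 1 / 2) : phi u v t (edgePt x y s) = t + 1 := by
  have h1 : edgePt x y s u = 0 := edgePt_other (Ne.symm hxu) (Ne.symm hyu) s
  have h2 : edgePt x y s v = 0 := edgePt_other (Ne.symm hxv) (Ne.symm hyv) s
  unfold phi
  rw [h1, h2]
  rw [if_neg (by norm_num)]
  rw [min_eq_left (by linarith)]
  ring

/-- `phi` is 1-Lipschitz along each edge. -/
lemma phi_lip {u v x y : V} (h : u ≠ v) (hxy : x ≠ y) {t s s' : ℝ} (ht0 : 0 ≤ t)
    (ht : t ≤ 1 / 2) (hs : 0 ≤ s ∧ s ≤ 1) (hs' : 0 ≤ s' ∧ s' ≤ 1) :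
    phi u v t (edgePt x y s') ≤ phi u v t (edgePt x y s) + |s' - s| := by
  obtain ⟨hs0, hs1⟩ := hs
  obtain ⟨hs0', hs1'⟩ := hs'
  by_cases hxu : x = u
  · subst hxu
    by_cases hyv : y = v
    · subst hyv
      rw [phi_uv h, phi_uv h]
      have := abs_sub_le s' s t
      linarith
    · rw [phi_ux h (Ne.symm hxy) hyv ht0 ht hs1, phi_ux h (Ne.symm hxy) hyv ht0 ht hs1']
      have := le_abs_self (s' - s)
      linarith
  · by_cases hyu : y = u
    · subst hyu
      by_cases hxv : x = v
      · subst hxv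
        rw [phi_vu h, phi_vu h]
        have := abs_sub_le (1 - s' - t) 0 (1 - s - t)
        have h2 : |1 - s' - t| ≤ |1 - s - t| + |(1 - s' - t) - (1 - s - t)| := by
          have := abs_sub_abs_le_abs_sub (1 - s' - t) (1 - s - t)
          linarith
        have h3 : |(1 - s' - t) - (1 - s - t)| = |s' - s| := by
          rw [← abs_neg]
          congr 1
          ring
        linarith
      · rw [phi_xu h hxy hxv ht0 ht hs0, phi_xu h hxy hxv ht0 ht hs0']
        have := neg_abs_le (s' - s)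
        linarith
    · by_cases hxv : x = v
      · subst hxv
        rw [phi_vx h hyu (Ne.symm hxy) ht0 ht, phi_vx h hyu (Ne.symm hxy) ht0 ht]
        have h1 := le_abs_self (s' - s)
        have h2 := abs_nonneg (s' - s)
        rcases min_cases (t + 1) (1 - t + s) with ⟨h3, h4⟩ | ⟨h3, h4⟩
        · rw [h3]
          have := min_le_left (t + 1) (1 - t + s')
          linarith
        · rw [h3]
          have := min_le_right (t + 1) (1 - t + s')
          linarith
      · by_cases hyv : y = v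
        · subst hyv
          rw [phi_xv h hxu hxy ht0 ht, phi_xv h hxu hxy ht0 ht]
          have h1 := neg_abs_le (s' - s)
          have h2 := abs_nonneg (s' - s)
          rcases min_cases (t + 1) (1 - t + (1 - s)) with ⟨h3, h4⟩ | ⟨h3, h4⟩
          · rw [h3]
            have := min_le_left (t + 1) (1 - t + (1 - s'))
            linarith
          · rw [h3]
            have := min_le_right (t + 1) (1 - t + (1 - s'))
            linarith
        · rw [phi_xy hxu hxv hyu hyv ht, phi_xy hxu hxv hyu hyv ht]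
          have h2 := abs_nonneg (s' - s)
          linarith

lemma phi_le_of_pathLen {u v : V} (h : u ≠ v) {t : ℝ} (ht0 : 0 ≤ t) (ht : t ≤ 1 / 2)
    {p q : V → ℝ} {l : ℝ} (hpl : PathLen (⊤ : SimpleGraph V) p q l) (hp : p = edgePt u v t) :
    phi u v t q ≤ l := by
  subst hp
  induction hpl with
  | refl _ =>
    rw [phi_uv h]
    simp
  | step x y s s' l hxy hs hs' _ ih =>
    have hxy' : x ≠ y := by simpa using hxy
    have h2 := phi_lip h hxy' ht0 ht hs hs'
    linarith

lemma pathDist_le_of_pathLen {G : SimpleGraph V} {p q : V → ℝ} {l r : ℝ}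
    (h : PathLen G p q l) (hlr : l ≤ r) : pathDist G p q ≤ ENNReal.ofReal r := by
  unfold pathDist
  exact le_trans (iInf₂_le l h) (ENNReal.ofReal_le_ofReal hlr)

lemma phi_le_of_pathDist {u v : V} (h : u ≠ v) {t : ℝ} (ht0 : 0 ≤ t) (ht : t ≤ 1 / 2)
    {q : V → ℝ} {r : ℝ} (hr : 0 ≤ r)
    (hd : pathDist (⊤ : SimpleGraph V) (edgePt u v t) q ≤ ENNReal.ofReal r) :
    phi u v t q ≤ r := by
  have h1 : ENNReal.ofReal (phi u v t q) ≤ pathDist (⊤ : SimpleGraph V) (edgePt u v t) q := by
    unfold pathDist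
    refine le_iInf₂ fun l hl => ENNReal.ofReal_le_ofReal ?_
    exact phi_le_of_pathLen h ht0 ht hl rfl
  have h2 := le_trans h1 hd
  exact (ENNReal.ofReal_le_ofReal_iff hr).1 h2

/-! ### The half balls -/

/-- The closed ball of radius `1/2` about the point at distance `t` from `u` on the edge `uv`. -/
noncomputable def hb (u v : V) (t : ℝ) : Set (V → ℝ) :=
  cBall (⊤ : SimpleGraph V) (edgePt u v t) (1 / 2)

/-- How far the ball `hb u v t` reaches from `u` along the edge `ux`. -/
noncomputable def reach (v : V) (t : ℝ) (x : V) : ℝ := if x = v then 1 / 2 + t else 1 / 2 - t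

lemma phi_le_of_mem_hb {u v : V} (h : u ≠ v) {t : ℝ} (ht0 : 0 ≤ t) (ht : t ≤ 1 / 2)
    {q : V → ℝ} (hq : q ∈ hb u v t) : phi u v t q ≤ 1 / 2 :=
  phi_le_of_pathDist h ht0 ht (by norm_num) hq.2

lemma mem_hb_iff {u v x : V} (h : u ≠ v) (hx : x ≠ u) {t s : ℝ} (ht0 : 0 ≤ t) (ht : t ≤ 1 / 2)
    (hs0 : 0 ≤ s) (hs1 : s ≤ 1) : edgePt u x s ∈ hb u v t ↔ s ≤ reach v t x := by
  constructor
  · intro hm
    have h1 := phi_le_of_mem_hb h ht0 ht hm
    unfold reach
    split_ifs with hc
    · subst hc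
      rw [phi_uv h] at h1
      have := le_abs_self (s - t)
      linarith
    · rw [phi_ux h hx hc ht0 ht hs1] at h1
      linarith
  · intro hr
    refine ⟨edgePt_mem (Ne.symm hx) hs0 hs1, ?_⟩
    unfold reach at hr
    split_ifs at hr with hc
    · subst hc
      have h1 : PathLen (⊤ : SimpleGraph V) (edgePt u x t) (edgePt u x t) 0 :=
        PathLen.refl _ (edgePt_mem h ht0 (by linarith))
      have h2 := PathLen.step (edgePt u x t) u x t s 0 (by simpa using h)
        ⟨ht0, by linarith⟩ ⟨hs0, hs1⟩ h1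
      refine pathDist_le_of_pathLen h2 ?_
      rw [zero_add, abs_le]
      constructor <;> linarith
    · have h1 : PathLen (⊤ : SimpleGraph V) (edgePt u v t) (edgePt u v t) 0 :=
        PathLen.refl _ (edgePt_mem h ht0 (by linarith))
      have h2 := PathLen.step (edgePt u v t) u v t 0 0 (by simpa using h)
        ⟨ht0, by linarith⟩ ⟨le_refl _, by norm_num⟩ h1
      rw [edgePt_zero, ← edgePt_zero u x] at h2
      have h3 := PathLen.step (edgePt u v t) u x 0 s _ (by simpa using (Ne.symm hx))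
        ⟨le_refl _, by norm_num⟩ ⟨hs0, hs1⟩ h2
      refine pathDist_le_of_pathLen h3 ?_
      rw [zero_add, zero_sub, abs_neg, sub_zero, abs_of_nonneg ht0, abs_of_nonneg hs0]
      linarith

/-- An interior point of an edge that does not contain the near end `u` is not in the ball. -/
lemma not_mem_hb {u v x y : V} (h : u ≠ v) (hxy : x ≠ y) (hx : x ≠ u) (hy : y ≠ u) {t s : ℝ}
    (ht0 : 0 ≤ t) (ht : t ≤ 1 / 2) (hs0 : 0 < s) (hs1 : s < 1) :
    edgePt x y s ∉ hb u v t := by
  intro hm
  have h1 := phi_le_of_mem_hb h ht0 ht hm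
  by_cases hxv : x = v
  · subst hxv
    rw [phi_vx h hy (Ne.symm hxy) ht0 ht] at h1
    rcases min_le_iff.1 h1 with h2 | h2 <;> linarith
  · by_cases hyv : y = v
    · subst hyv
      rw [phi_xv h hx hxy ht0 ht] at h1
      rcases min_le_iff.1 h1 with h2 | h2 <;> linarith
    · rw [phi_xy hx hxv hy hyv ht] at h1
      linarith

lemma vertexPt_mem_hb_self {u v : V} (h : u ≠ v) {t : ℝ} (ht0 : 0 ≤ t) (ht : t ≤ 1 / 2) :
    vertexPt u ∈ hb u v t := by
  rw [← edgePt_zero u v, mem_hb_iff h (Ne.symm h) ht0 ht (le_refl _) (by norm_num)]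
  unfold reach
  rw [if_pos rfl]
  linarith

/-- A vertex other than the near end lies in the ball only if the centre is the midpoint. -/
lemma vertexPt_mem_hb {u v w : V} (h : u ≠ v) (hw : w ≠ u) {t : ℝ} (ht0 : 0 ≤ t)
    (ht : t ≤ 1 / 2) (hm : vertexPt w ∈ hb u v t) : w = v ∧ t = 1 / 2 := by
  rw [← edgePt_one u w, mem_hb_iff h hw ht0 ht (by norm_num) (le_refl _)] at hm
  unfold reach at hm
  split_ifs at hm with hc
  · exact ⟨hc, by linarith⟩
  · linarith

/-- Every point of the continuous complete graph on at least two vertices is the centre of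
some `hb u v t` with `0 ≤ t ≤ 1/2`. -/
lemma exists_rep [Nontrivial V] {p : V → ℝ} (hp : p ∈ contGraph (⊤ : SimpleGraph V)) :
    ∃ (u v : V) (t : ℝ), u ≠ v ∧ 0 ≤ t ∧ t ≤ 1 / 2 ∧ p = edgePt u v t := by
  rcases hp with ⟨v, rfl⟩ | ⟨u, v, t, huv, h0, h1, rfl⟩
  · obtain ⟨w, hw⟩ := exists_ne v
    exact ⟨v, w, 0, hw.symm, le_refl _, by norm_num, (edgePt_zero v w).symm⟩
  · have huv' : u ≠ v := by simpa using huv
    by_cases ht : t ≤ 1 / 2
    · exact ⟨u, v, t, huv', h0, ht, rfl⟩
    · exact ⟨v, u, 1 - t, huv'.symm, by linarith, by linarith, edgePt_swap u v t⟩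

end Pool.Agent.MP_4befb3_co
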