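import Mathlib
import Pool.Agent.Lib.MP_4befb3_co.Geom

/-!
From combinatorial data to a coloured cover of the continuous complete graph.
-/

namespace Pool.Agent.MP_4befb3_co

variable {V : Type*} [DecidableEq V]

/-- Two half balls with different near ends whose reaches towards each other add up to less
than one are disjoint. -/
lemma hb_disjoint {u v u' v' : V} {t t' : ℝ} (huv : u ≠ v) (huv' : u' ≠ v') (huu : u ≠ u')
    (ht0 : 0 ≤ t) (ht : t < 1 / 2) (ht0' : 0 ≤ t') (ht' : t' < 1 / 2)
    (hr : reach v t u' + reach v' t' u < 1) : ¬ ((hb u v t) ∩ (hb u' v' t')).Nonempty := by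
  rintro ⟨q, hq, hq'⟩
  rcases hq.1 with ⟨w, rfl⟩ | ⟨x, y, s, hxy, hs0, hs1, rfl⟩
  · have h1 : w = u := by
      by_contra hw
      have := (vertexPt_mem_hb huv hw ht0 ht.le hq).2
      linarith
    have h2 : w = u' := by
      by_contra hw
      have := (vertexPt_mem_hb huv' hw ht0' ht'.le hq').2
      linarith
    exact huu (h1.symm.trans h2)
  · have hxy' : x ≠ y := by simpa using hxy
    have hvert : ∀ w : V, vertexPt w ∈ hb u v t → vertexPt w ∈ hb u' v' t' → False := by
      intro w hw1 hw2
      have h1 : w = u := by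
        by_contra hw
        have := (vertexPt_mem_hb huv hw ht0 ht.le hw1).2
        linarith
      have h2 : w = u' := by
        by_contra hw
        have := (vertexPt_mem_hb huv' hw ht0' ht'.le hw2).2
        linarith
      exact huu (h1.symm.trans h2)
    rcases hs0.eq_or_lt with h0 | h0
    · subst h0
      rw [edgePt_zero] at hq hq'
      exact hvert x hq hq'
    rcases hs1.eq_or_lt with h1 | h1
    · subst h1
      rw [edgePt_one] at hq hq'
      exact hvert y hq hq'
    have hu : x = u ∨ y = u := by
      by_contra hcon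
      push Not at hcon
      exact not_mem_hb huv hxy' hcon.1 hcon.2 ht0 ht.le h0 h1 hq
    have hu' : x = u' ∨ y = u' := by
      by_contra hcon
      push Not at hcon
      exact not_mem_hb huv' hxy' hcon.1 hcon.2 ht0' ht'.le h0 h1 hq'
    rcases hu with rfl | rfl <;> rcases hu' with rfl | rfl
    · exact huu rfl
    · rw [mem_hb_iff huv (Ne.symm hxy') ht0 ht.le hs0 hs1] at hq
      rw [edgePt_swap, mem_hb_iff huv' hxy' ht0' ht'.le (by linarith) (by linarith)] at hq'
      linarith
    · rw [mem_hb_iff huv' (Ne.symm hxy') ht0' ht'.le hs0 hs1] at hq'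
      rw [edgePt_swap, mem_hb_iff huv hxy' ht0 ht.le (by linarith) (by linarith)] at hq
      linarith
    · exact huu rfl

lemma colourable_of_real [Nontrivial V] (c : ℕ) (pres : Fin c → V → Prop)
    (par : Fin c → V → V) (t : Fin c → V → ℝ)
    (hpar : ∀ i x, par i x ≠ x) (ht0 : ∀ i x, 0 ≤ t i x) (ht : ∀ i x, t i x < 1 / 2)
    (hdisj : ∀ i x y, x ≠ y → pres i x → pres i y →
      reach (par i x) (t i x) y + reach (par i y) (t i y) x < 1)
    (hcov : ∀ x y, x ≠ y → ∃ i j, pres i x ∧ pres j y ∧
      1 ≤ reach (par i x) (t i x) y + reach (par j y) (t j y) x) :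
    IsColourable (⊤ : SimpleGraph V) (1 / 2) c := by
  classical
  let ℬ : Set (Set (V → ℝ)) := {B | ∃ i x, pres i x ∧ B = hb x (par i x) (t i x)}
  refine ⟨ℬ, ?_, ?_, ?_⟩
  · rintro B ⟨i, x, _, rfl⟩
    exact ⟨edgePt x (par i x) (t i x),
      edgePt_mem (hpar i x).symm (ht0 i x) (by have := ht i x; linarith), rfl⟩
  · apply Set.Subset.antisymm
    · rintro q ⟨B, ⟨i, x, _, rfl⟩, hq⟩
      exact hq.1
    · intro q hq
      obtain ⟨x, y, s, hxy, hs0, hs1, rfl⟩ : ∃ (x y : V) (s : ℝ), x ≠ y ∧ 0 ≤ s ∧ s ≤ 1 ∧
          q = edgePt x y s := by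
        obtain ⟨u, v, s, h1, h2, h3, h4⟩ := exists_rep hq
        exact ⟨u, v, s, h1, h2, by linarith, h4⟩
      obtain ⟨i, j, hi, hj, hr⟩ := hcov x y hxy
      by_cases hsr : s ≤ reach (par i x) (t i x) y
      · refine ⟨_, ⟨i, x, hi, rfl⟩, ?_⟩
        exact (mem_hb_iff (hpar i x).symm (Ne.symm hxy) (ht0 i x) (ht i x).le hs0 hs1).2 hsr
      · refine ⟨_, ⟨j, y, hj, rfl⟩, ?_⟩
        rw [edgePt_swap]
        refine (mem_hb_iff (hpar j y).symm hxy (ht0 j y) (ht j y).le (by linarith)
          (by linarith)).2 ?_
        linarith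
  · have hB : ∀ B : ℬ, ∃ i x, pres i x ∧ (B : Set (V → ℝ)) = hb x (par i x) (t i x) :=
      fun B => B.2
    choose f g hf hg using hB
    refine ⟨f, ?_⟩
    intro B B' hne hmeet heq
    have h1 : g B ≠ g B' := by
      intro hgg
      apply hne
      apply Subtype.ext
      rw [hg B, hg B', heq, hgg]
    have hp' := hf B'
    have hb' := hg B'
    rw [← heq] at hp' hb'
    rw [hg B, hb'] at hmeet
    exact hb_disjoint (hpar _ _).symm (hpar _ _).symm h1 (ht0 _ _) (ht _ _) (ht0 _ _) (ht _ _)
      (hdisj _ _ _ h1 (hf B) hp') hmeet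

/-- Combinatorial certificate. For each colour `i` and vertex `x`: `pres i x` says that there
is a ball of colour `i` near `x`; `vb i x` says that it is centred at `x`; otherwise it is
directed towards `par i x`, at height `lev i x`. -/
structure Cert (V : Type*) (c : ℕ) where
  pres : Fin c → V → Prop
  vb : Fin c → V → Prop
  par : Fin c → V → V
  lev : Fin c → V → ℕ
  bound : ℕ
  lev_le : ∀ i x, lev i x ≤ bound
  par_ne : ∀ i x, par i x ≠ x
  vb_unique : ∀ i x y, vb i x → vb i y → x = y
  incr : ∀ i x, pres i x → ¬ vb i x → pres i (par i x) →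
    ¬ vb i (par i x) ∧ lev i x < lev i (par i x)
  leaf : ∀ x, ∃ i, pres i x ∧ (vb i x ∨ lev i x = 0)
  cover : ∀ x y, x ≠ y → (∃ i j, pres i x ∧ vb i x ∧ pres j y ∧ vb j y) ∨
    (∃ i, pres i x ∧ ¬ vb i x ∧ par i x = y) ∨ (∃ i, pres i y ∧ ¬ vb i y ∧ par i y = x)

theorem Cert.colourable [Nontrivial V] {c : ℕ} (C : Cert V c) :
    IsColourable (⊤ : SimpleGraph V) (1 / 2) c := by
  classical
  set ε : ℝ := 1 / (2 * (C.bound + 2)) with hε
  have hεpos : 0 < ε := by positivity
  have hεb : ε * (C.bound + 1) < 1 / 2 := by
    rw [hε]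
    rw [one_div, inv_mul_eq_div, div_lt_div_iff₀ (by positivity) (by norm_num)]
    linarith
  let t : Fin c → V → ℝ := fun i x => if C.vb i x then 0 else ε * (C.lev i x + 1)
  have ht0 : ∀ i x, 0 ≤ t i x := by
    intro i x
    simp only [t]
    split_ifs
    · exact le_refl _
    · positivity
  have ht : ∀ i x, t i x < 1 / 2 := by
    intro i x
    simp only [t]
    split_ifs
    · norm_num
    · have h1 : (C.lev i x : ℝ) ≤ C.bound := by exact_mod_cast C.lev_le i x
      have h2 : ε * (C.lev i x + 1) ≤ ε * (C.bound + 1) := by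
        apply mul_le_mul_of_nonneg_left _ hεpos.le
        linarith
      linarith
  have htpos : ∀ i x, ¬ C.vb i x → 0 < t i x := by
    intro i x h
    simp only [t]
    rw [if_neg h]
    positivity
  refine colourable_of_real c C.pres C.par t C.par_ne ht0 ht ?_ ?_
  · intro i x y hxy hx hy
    -- at most one of the two is a vertex ball
    have hvv : ¬ (C.vb i x ∧ C.vb i y) := fun h => hxy (C.vb_unique i x y h.1 h.2)
    unfold reach
    by_cases hpy : y = C.par i x
    · rw [if_pos hpy]
      by_cases hpx : x = C.par i y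
      · exfalso
        by_cases hvx : C.vb i x
        · by_cases hvy : C.vb i y
          · exact hvv ⟨hvx, hvy⟩
          · have := (C.incr i y hy hvy (by rw [← hpx]; exact hx)).1
            rw [← hpx] at this
            exact this hvx
        · have h1 := C.incr i x hx hvx (by rw [← hpy]; exact hy)
          rw [← hpy] at h1
          have h2 := C.incr i y hy h1.1 (by rw [← hpx]; exact hx)
          rw [← hpx] at h2
          omega
      · rw [if_neg hpx]
        by_cases hvx : C.vb i x
        · have htx : t i x = 0 := by simp only [t]; rw [if_pos hvx]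
          have hty := htpos i y (fun h => hvv ⟨hvx, h⟩)
          rw [htx]
          linarith
        · have h1 := C.incr i x hx hvx (by rw [← hpy]; exact hy)
          rw [← hpy] at h1
          have h2 : t i x < t i y := by
            simp only [t]
            rw [if_neg hvx, if_neg h1.1]
            apply mul_lt_mul_of_pos_left _ hεpos
            have : (C.lev i x : ℝ) < C.lev i y := by exact_mod_cast h1.2
            linarith
          linarith
    · rw [if_neg hpy]
      by_cases hpx : x = C.par i y
      · rw [if_pos hpx]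
        by_cases hvy : C.vb i y
        · have hty : t i y = 0 := by simp only [t]; rw [if_pos hvy]
          have htx := htpos i x (fun h => hvv ⟨h, hvy⟩)
          rw [hty]
          linarith
        · have h1 := C.incr i y hy hvy (by rw [← hpx]; exact hx)
          rw [← hpx] at h1
          have h2 : t i y < t i x := by
            simp only [t]
            rw [if_neg hvy, if_neg h1.1]
            apply mul_lt_mul_of_pos_left _ hεpos
            have : (C.lev i y : ℝ) < C.lev i x := by exact_mod_cast h1.2
            linarith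
          linarith
      · rw [if_neg hpx]
        by_cases hvx : C.vb i x
        · have hty := htpos i y (fun h => hvv ⟨hvx, h⟩)
          have := ht0 i x
          linarith
        · have htx := htpos i x hvx
          have := ht0 i y
          linarith
  · -- covering
    have key : ∀ x y, x ≠ y → (∃ i, C.pres i x ∧ ¬ C.vb i x ∧ C.par i x = y) →
        ∃ i j, C.pres i x ∧ C.pres j y ∧
          1 ≤ reach (C.par i x) (t i x) y + reach (C.par j y) (t j y) x := by
      rintro x y hxy ⟨i, hi, hvi, hpar⟩
      obtain ⟨j, hj, hl⟩ := C.leaf y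
      refine ⟨i, j, hi, hj, ?_⟩
      have h1 : t j y ≤ t i x := by
        simp only [t]
        rw [if_neg hvi]
        rcases hl with h | h
        · rw [if_pos h]
          positivity
        · split_ifs
          · positivity
          · rw [h]
            apply mul_le_mul_of_nonneg_left _ hεpos.le
            have : (0 : ℝ) ≤ C.lev i x := by positivity
            push_cast
            linarith
      have h2 := ht0 j y
      unfold reach
      rw [if_pos hpar.symm]
      split_ifs <;> linarith
    intro x y hxy
    rcases C.cover x y hxy with ⟨i, j, hi, hvi, hj, hvj⟩ | h | h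
    · refine ⟨i, j, hi, hj, ?_⟩
      have h1 : t i x = 0 := by simp only [t]; rw [if_pos hvi]
      have h2 : t j y = 0 := by simp only [t]; rw [if_pos hvj]
      rw [h1, h2]
      unfold reach
      split_ifs <;> norm_num
    · exact key x y hxy h
    · obtain ⟨i, j, hi, hj, hr⟩ := key y x hxy.symm h
      exact ⟨j, i, hj, hi, by linarith⟩

/-- Transport of certificates along a bijection of the vertex sets. -/
def Cert.map {W : Type*} {c : ℕ} (C : Cert V c) (e : W ≃ V) : Cert W c where
  pres i x := C.pres i (e x)
  vb i x := C.vb i (e x)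
  par i x := e.symm (C.par i (e x))
  lev i x := C.lev i (e x)
  bound := C.bound
  lev_le i x := C.lev_le i (e x)
  par_ne i x := by
    intro h
    apply C.par_ne i (e x)
    have h2 := congrArg e h
    simpa using h2
  vb_unique i x y hx hy := e.injective (C.vb_unique i _ _ hx hy)
  incr i x h1 h2 h3 := by
    have := C.incr i (e x) h1 h2 (by simpa using h3)
    simpa using this
  leaf x := C.leaf (e x)
  cover x y hxy := by
    rcases C.cover (e x) (e y) (fun h => hxy (e.injective h)) with h | ⟨i, h1, h2, h3⟩ |
      ⟨i, h1, h2, h3⟩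
    · exact Or.inl h
    · exact Or.inr (Or.inl ⟨i, h1, h2, by rw [h3]; simp⟩)
    · exact Or.inr (Or.inr ⟨i, h1, h2, by rw [h3]; simp⟩)

end Pool.Agent.MP_4befb3_co
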