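import Mathlib
import Pool.Agent.Lib.MP_4befb3_co.Upper

/-!
The certificate for `n = 2c + r`, `1 ≤ r`, `3c + 2cr + r² - r ≤ c²`.
-/

namespace Pool.Agent.MP_4befb3_co

open Finset

/-- Balanced choice of subsets of prescribed sizes under nearly equal capacities. -/
lemma balanced (c : ℕ) : ∀ (r : ℕ) (sz : Fin r → ℕ) (κ : ℕ) (cap : Fin c → ℕ),
    (∀ i, cap i = κ ∨ cap i = κ + 1) → (∀ a, sz a ≤ c) → ∑ a, sz a ≤ ∑ i, cap i →
    ∃ Y : Fin r → Finset (Fin c), (∀ a, (Y a).card = sz a) ∧
      ∀ i, ∑ a, (if i ∈ Y a then 1 else 0) ≤ cap i := by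
  intro r
  induction r with
  | zero =>
    intro sz κ cap _ _ _
    exact ⟨fun a => a.elim0, fun a => a.elim0, fun i => by simp⟩
  | succ r ih =>
    intro sz κ cap hcap hsz hsum
    rw [Fin.sum_univ_succ] at hsum
    set H : Finset (Fin c) := univ.filter (fun i => cap i = κ + 1) with hH
    have hHmem : ∀ i, i ∈ H ↔ cap i = κ + 1 := fun i => by simp [hH]
    -- choose the first set
    obtain ⟨Y0, hY0card, κ', hκ', hY0pos⟩ : ∃ Y0 : Finset (Fin c), Y0.card = sz 0 ∧ ∃ κ',
        (∀ i, cap i - (if i ∈ Y0 then 1 else 0) = κ' ∨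
          cap i - (if i ∈ Y0 then 1 else 0) = κ' + 1) ∧
        (∀ i, i ∈ Y0 → 1 ≤ cap i) := by
      by_cases hle : sz 0 ≤ H.card
      · obtain ⟨Y0, hsub, hc0⟩ := Finset.exists_subset_card_eq hle
        refine ⟨Y0, hc0, κ, ?_, ?_⟩
        · intro i
          by_cases hi : i ∈ Y0
          · have := (hHmem i).1 (hsub hi)
            rw [if_pos hi]
            left
            omega
          · rw [if_neg hi]
            exact hcap i
        · intro i hi
          have := (hHmem i).1 (hsub hi)
          omega
      · push Not at hle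
        obtain ⟨Y0, hsub, _, hc0⟩ := Finset.exists_subsuperset_card_eq (Finset.subset_univ H)
          hle.le (by simpa using hsz 0)
        have hsumcap : ∑ i, cap i = c * κ + H.card := by
          have h1 : ∀ i, cap i = κ + (if i ∈ H then 1 else 0) := by
            intro i
            by_cases hi : i ∈ H
            · rw [if_pos hi]
              exact (hHmem i).1 hi
            · rw [if_neg hi]
              rcases hcap i with h | h
              · exact h
              · exact absurd ((hHmem i).2 h) hi
          rw [Finset.sum_congr rfl (fun i _ => h1 i), Finset.sum_add_distrib]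
          simp
        have hκ1 : 1 ≤ κ := by
          by_contra hcon
          have h0 : κ = 0 := by omega
          rw [h0] at hsumcap
          simp only [mul_zero, zero_add] at hsumcap
          have h2 : sz 0 ≤ H.card := by
            calc sz 0 ≤ sz 0 + ∑ a : Fin r, sz a.succ := Nat.le_add_right _ _
              _ ≤ ∑ i, cap i := hsum
              _ = H.card := hsumcap
          omega
        refine ⟨Y0, hc0, κ - 1, ?_, ?_⟩
        · intro i
          by_cases hi : i ∈ Y0
          · rw [if_pos hi]
            rcases hcap i with h | h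
            · left; omega
            · right; omega
          · rw [if_neg hi]
            have hi' : i ∉ H := fun h => hi (hsub h)
            rcases hcap i with h | h
            · right; omega
            · exact absurd ((hHmem i).2 h) hi'
        · intro i _
          rcases hcap i with h | h <;> omega
    have hsum' : ∑ a : Fin r, sz a.succ ≤ ∑ i, (cap i - (if i ∈ Y0 then 1 else 0)) := by
      have h1 : ∑ i, (cap i - (if i ∈ Y0 then 1 else 0)) + Y0.card = ∑ i, cap i := by
        have h2 : Y0.card = ∑ i, (if i ∈ Y0 then 1 else 0) := by simp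
        rw [h2, ← Finset.sum_add_distrib]
        refine Finset.sum_congr rfl (fun i _ => ?_)
        by_cases hi : i ∈ Y0
        · have := hY0pos i hi
          rw [if_pos hi]
          omega
        · rw [if_neg hi]
          omega
      omega
    obtain ⟨Y', hY'1, hY'2⟩ := ih (fun a => sz a.succ) κ'
      (fun i => cap i - (if i ∈ Y0 then 1 else 0)) hκ' (fun a => hsz a.succ) hsum'
    refine ⟨Fin.cons Y0 Y', ?_, ?_⟩
    · intro a
      refine Fin.cases ?_ (fun a => ?_) a
      · simpa using hY0card
      · simpa using hY'1 a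
    · intro i
      rw [Fin.sum_univ_succ]
      have h3 := hY'2 i
      simp only [Fin.cons_zero, Fin.cons_succ]
      by_cases hi : i ∈ Y0
      · have := hY0pos i hi
        rw [if_pos hi] at h3 ⊢
        omega
      · rw [if_neg hi] at h3 ⊢
        omega

/-- Forward distance from `i` to `j` modulo `c`. -/
def dl (c i j : ℕ) : ℕ := if i ≤ j then j - i else j + c - i

/-- `i - e` modulo `c`. -/
def sb (c i e : ℕ) : ℕ := if e ≤ i then i - e else i + c - e

/-- `i + e` modulo `c`. -/
def ad (c i e : ℕ) : ℕ := if i + e < c then i + e else i + e - c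

/-- The tournament: `i` beats `j`. -/
def Tn (c i j : ℕ) : Prop := c < 2 * dl c j i ∨ (2 * dl c j i = c ∧ c ≤ 2 * i)

/-- Number of admissible backward steps. -/
def hh (c i : ℕ) : ℕ := if c % 2 = 0 ∧ 2 * i < c then c / 2 else (c - 1) / 2

lemma dl_lt {c i j : ℕ} (hi : i < c) (hj : j < c) : dl c i j < c := by
  unfold dl; split_ifs <;> omega

lemma dl_pos {c i j : ℕ} (hi : i < c) (hj : j < c) (h : i ≠ j) : 1 ≤ dl c i j := by
  unfold dl; split_ifs <;> omega

lemma sb_lt {c i e : ℕ} (hi : i < c) (he : e ≤ c) (he0 : 1 ≤ e) : sb c i e < c := by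
  unfold sb; split_ifs <;> omega

lemma ad_lt {c i e : ℕ} (hi : i < c) (he : e < c) : ad c i e < c := by
  unfold ad; split_ifs <;> omega

lemma dl_sb {c i e : ℕ} (hi : i < c) (he : e < c) : dl c (sb c i e) i = e := by
  unfold dl sb; split_ifs <;> omega

lemma dl_ad {c i e : ℕ} (hi : i < c) (he : e < c) : dl c i (ad c i e) = e := by
  unfold dl ad; split_ifs <;> omega

lemma ad_sb {c i e : ℕ} (hi : i < c) (he : e < c) : ad c (sb c i e) e = i := by
  unfold ad sb; split_ifs <;> omega

lemma sb_ad {c i e : ℕ} (hi : i < c) (he : e < c) : sb c (ad c i e) e = i := by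
  unfold ad sb; split_ifs <;> omega

lemma sb_ne {c i e : ℕ} (hi : i < c) (he : e < c) (he0 : 1 ≤ e) : sb c i e ≠ i := by
  unfold sb; split_ifs <;> omega

lemma sb_inj {c i e e' : ℕ} (hi : i < c) (he : e < c) (he' : e' < c)
    (h : sb c i e = sb c i e') : e = e' := by
  rw [← dl_sb hi he, h, dl_sb hi he']

lemma Tn_total {c i j : ℕ} (hi : i < c) (hj : j < c) (h : i ≠ j) : Tn c i j ∨ Tn c j i := by
  unfold Tn dl; split_ifs <;> omega

lemma not_Tn {c i j : ℕ} (h : 2 * dl c j i < c) : ¬ Tn c i j := by
  unfold Tn; omega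

lemma not_Tn' {c i j : ℕ} (h : dl c j i ≤ hh c i) (hc : 1 ≤ c) : ¬ Tn c i j := by
  unfold Tn
  unfold hh at h
  split_ifs at h <;> omega

lemma dl_pred {c i k : ℕ} (hi : i < c) (hk : k < c) (hd : dl c k i + 1 < c) :
    dl c (sb c k 1) i = dl c k i + 1 := by
  unfold dl sb at *; split_ifs at * <;> omega

lemma c_ge {c r : ℕ} (hc : 1 ≤ c) (hr : 1 ≤ r)
    (h : r * r + 2 * c * r + 3 * c ≤ c * c + r) : 2 * r + 3 ≤ c := by
  have h1 : c * (2 * r + 3) ≤ c * c := by
    have : r ≤ r * r := Nat.le_mul_self r
    nlinarith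
  exact Nat.le_of_mul_le_mul_left h1 hc

/-- The auxiliary choices for the second scheme. -/
lemma exists_data {c r : ℕ} (hc : 1 ≤ c) (hr : 1 ≤ r)
    (h : r * r + 2 * c * r + 3 * c ≤ c * c + r) :
    ∃ (Y : Fin r → Finset (Fin c)) (y : Fin r → Fin r → Fin c) (g : Fin c → Fin r → Fin c)
      (ja : Fin r → Fin c),
      (∀ a b, a < b → y a b ∈ Y a) ∧
      (∀ a b b', a < b → a < b' → y a b = y a b' → b = b') ∧
      (∀ i a, i ∈ Y a → r + 2 ≤ dl c (g i a) i ∧ dl c (g i a) i ≤ hh c i) ∧
      (∀ i a a', i ∈ Y a → i ∈ Y a' → g i a = g i a' → a = a') ∧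
      (∀ a, ja a ∉ Y a) ∧
      (∀ a b, b < a → ja a ≠ y b a) ∧
      (∀ i a, i ∈ Y a → ja a ≠ g i a) := by
  classical
  have hcr := c_ge hc hr h
  -- capacities
  have hh_ge : ∀ i : ℕ, r + 1 ≤ hh c i := by
    intro i
    unfold hh
    split_ifs with h1
    · omega
    · by_cases hc2 : c % 2 = 0 <;> omega
  have hh_lt : ∀ i : ℕ, hh c i < c := by
    intro i
    unfold hh
    split_ifs with h1 <;> omega
  obtain ⟨κ, hκ⟩ : ∃ κ, ∀ i : Fin c, hh c i - (r + 1) = κ ∨ hh c i - (r + 1) = κ + 1 := by
    refine ⟨(c - 1) / 2 - (r + 1), fun i => ?_⟩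
    unfold hh
    split_ifs with h1
    · omega
    · left; rfl
  have hsz : ∀ a : Fin r, r - 1 - a.val ≤ c := by intro a; omega
  have hsum : ∑ a : Fin r, (r - 1 - a.val) ≤ ∑ i : Fin c, (hh c i - (r + 1)) := by
    have h1 : ∑ a : Fin r, (r - 1 - a.val) = r * (r - 1) / 2 := by
      rw [Fin.sum_univ_eq_sum_range (fun a => r - 1 - a) r, Finset.sum_range_reflect (fun a => a),
        Finset.sum_range_id]
    have h2 : 2 * ∑ i : Fin c, (hh c i - (r + 1)) = c * (c - 2 * r - 3) := by
      rcases Nat.even_or_odd' c with ⟨m, hm | hm⟩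
      · have h3 : ∀ i : Fin c, hh c i - (r + 1) = (m - r - 2) + (if i.val < m then 1 else 0) := by
          intro i
          unfold hh
          split_ifs <;> omega
        rw [Finset.sum_congr rfl (fun i _ => h3 i), Finset.sum_add_distrib]
        have h4 : ∑ i : Fin c, (if i.val < m then 1 else 0) = m := by
          rw [Fin.sum_univ_eq_sum_range (fun i => if i < m then 1 else 0) c,
            Finset.sum_ite, Finset.sum_const_zero, add_zero, Finset.sum_const, smul_eq_mul,
            mul_one]
          have : (Finset.range c).filter (fun i => i < m) = Finset.range m := by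
            ext i
            simp only [Finset.mem_filter, Finset.mem_range]
            omega
          rw [this, Finset.card_range]
        rw [h4]
        simp only [Finset.sum_const, Finset.card_univ, Fintype.card_fin, smul_eq_mul]
        obtain ⟨d, hd⟩ : ∃ d, m = d + r + 2 := ⟨m - r - 2, by omega⟩
        have e1 : m - r - 2 = d := by omega
        have e2 : c - 2 * r - 3 = 2 * d + 1 := by omega
        rw [e1, e2]
        have : c = 2 * m := hm
        calc 2 * (c * d + m) = c * (2 * d) + 2 * m := by ring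
          _ = c * (2 * d) + c := by rw [← hm]
          _ = c * (2 * d + 1) := by ring
      · have h3 : ∀ i : Fin c, hh c i - (r + 1) = m - r - 1 := by
          intro i
          unfold hh
          split_ifs <;> omega
        rw [Finset.sum_congr rfl (fun i _ => h3 i)]
        simp only [Finset.sum_const, Finset.card_univ, Fintype.card_fin, smul_eq_mul]
        have e2 : c - 2 * r - 3 = 2 * (m - r - 1) := by omega
        rw [e2]
        ring
    have h3 : r * (r - 1) ≤ c * (c - 2 * r - 3) := by
      obtain ⟨d, hd⟩ : ∃ d, c = d + 2 * r + 3 := ⟨c - 2 * r - 3, by omega⟩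
      obtain ⟨q, hq⟩ : ∃ q, r = q + 1 := ⟨r - 1, by omega⟩
      have e1 : c - 2 * r - 3 = d := by omega
      have e2 : r - 1 = q := by omega
      rw [e1, e2]
      rw [hd] at h ⊢
      rw [hq] at h ⊢
      nlinarith
    rw [h1]
    omega
  obtain ⟨Y, hY1, hY2⟩ := balanced c r (fun a => r - 1 - a.val) κ
    (fun i => hh c i - (r + 1)) hκ hsz hsum
  -- the function `y`
  have hy : ∀ a : Fin r, ∃ f : {b : Fin r // a < b} → {i // i ∈ Y a}, Function.Injective f := by
    intro a
    have h1 : Fintype.card {b : Fin r // a < b} = r - 1 - a.val := by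
      rw [Fintype.card_subtype]
      have : (Finset.univ.filter (fun b : Fin r => a < b)) = Finset.Ioi a := by
        ext b
        simp
      rw [this, Fin.card_Ioi]
    have h2 : Fintype.card {b : Fin r // a < b} ≤ Fintype.card {i // i ∈ Y a} := by
      rw [h1, Fintype.card_coe, hY1 a]
    obtain ⟨e⟩ := Function.Embedding.nonempty_of_card_le h2
    exact ⟨e, e.injective⟩
  choose fy hfy using hy
  let y : Fin r → Fin r → Fin c := fun a b =>
    if hab : a < b then (fy a ⟨b, hab⟩).1 else ⟨0, by omega⟩
  have hyv : ∀ a b (hab : a < b), y a b = (fy a ⟨b, hab⟩).1 := by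
    intro a b hab
    simp only [y]
    rw [dif_pos hab]
  -- the function `g`
  have hg : ∀ i : Fin c, ∃ f : {a : Fin r // i ∈ Y a} → Fin (hh c i - (r + 1)),
      Function.Injective f := by
    intro i
    have h1 : Fintype.card {a : Fin r // i ∈ Y a} ≤ Fintype.card (Fin (hh c i - (r + 1))) := by
      rw [Fintype.card_subtype, Fintype.card_fin, Finset.card_filter]
      exact hY2 i
    obtain ⟨e⟩ := Function.Embedding.nonempty_of_card_le h1
    exact ⟨e, e.injective⟩
  choose fg hfg using hg
  let g : Fin c → Fin r → Fin c := fun i a =>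
    if hia : i ∈ Y a then ⟨sb c i (r + 2 + (fg i ⟨a, hia⟩).1), by
      have h1 := (fg i ⟨a, hia⟩).2
      have h2 := hh_lt i
      exact sb_lt i.2 (by omega) (by omega)⟩ else i
  have hgv : ∀ i a (hia : i ∈ Y a), (g i a).val = sb c i (r + 2 + (fg i ⟨a, hia⟩).1) := by
    intro i a hia
    simp only [g]
    rw [dif_pos hia]
  -- the colours `ja`
  have hja : ∀ a : Fin r, ∃ j : Fin c, j ∉ Y a ∧ (∀ b, b < a → j ≠ y b a) ∧
      (∀ i, i ∈ Y a → j ≠ g i a) := by
    intro a
    let F : Finset (Fin c) := Y a ∪ (Finset.Iio a).image (fun b => y b a) ∪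
      (Y a).image (fun i => g i a)
    have hF : F.card < c := by
      have h1 : F.card ≤ (Y a).card + ((Finset.Iio a).image (fun b => y b a)).card +
          ((Y a).image (fun i => g i a)).card := by
        refine le_trans (Finset.card_union_le _ _) ?_
        exact Nat.add_le_add_right (Finset.card_union_le _ _) _
      have h2 : ((Finset.Iio a).image (fun b => y b a)).card ≤ a.val := by
        refine le_trans Finset.card_image_le ?_
        rw [Fin.card_Iio]
      have h3 : ((Y a).image (fun i => g i a)).card ≤ (Y a).card := Finset.card_image_le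
      have h4 : (Y a).card = r - 1 - a.val := hY1 a
      have := a.2
      omega
    obtain ⟨j, hj⟩ : ∃ j, j ∉ F := by
      by_contra hcon
      push Not at hcon
      have : F = Finset.univ := Finset.eq_univ_of_forall hcon
      rw [this, Finset.card_univ, Fintype.card_fin] at hF
      omega
    simp only [F, Finset.mem_union, Finset.mem_image, Finset.mem_Iio, not_or] at hj
    refine ⟨j, hj.1.1, ?_, ?_⟩
    · intro b hb hjb
      exact hj.1.2 ⟨b, hb, hjb.symm⟩
    · intro i hi hji
      exact hj.2 ⟨i, hi, hji.symm⟩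
  choose ja hja1 hja2 hja3 using hja
  refine ⟨Y, y, g, ja, ?_, ?_, ?_, ?_, hja1, fun a b hb => hja2 a b hb,
    fun i a hi => hja3 a i hi⟩
  · intro a b hab
    rw [hyv a b hab]
    exact (fy a ⟨b, hab⟩).2
  · intro a b b' hab hab' heq
    rw [hyv a b hab, hyv a b' hab'] at heq
    have := hfy a (Subtype.ext heq)
    exact congrArg Subtype.val this
  · intro i a hia
    have h1 := (fg i ⟨a, hia⟩).2
    have h2 := hh_lt i
    rw [hgv i a hia, dl_sb i.2 (by omega)]
    constructor <;> omega
  · intro i a a' hia hia' heq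
    have h1 := (fg i ⟨a, hia⟩).2
    have h1' := (fg i ⟨a', hia'⟩).2
    have h2 := hh_lt i
    have heq' : (g i a).val = (g i a').val := by rw [heq]
    rw [hgv i a hia, hgv i a' hia'] at heq'
    have h3 := sb_inj i.2 (by omega) (by omega) heq'
    have h4 : fg i ⟨a, hia⟩ = fg i ⟨a', hia'⟩ := Fin.ext (by omega)
    exact congrArg Subtype.val (hfg i h4)

end Pool.Agent.MP_4befb3_co
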