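import Mathlib
import Pool.Agent.Lib.MP_4befb3_co.Scheme2

/-!
The certificate for `n = 2c + r`, second part.
-/

namespace Pool.Agent.MP_4befb3_co

/-- The vertex type of the second scheme. -/
abbrev VV (c r : ℕ) : Type := Fin c ⊕ (Fin c ⊕ Fin r)

/-- The parent function of the second scheme. -/
noncomputable def par2 (c r : ℕ) (hr : 1 ≤ r) (hcr : 2 * r + 3 ≤ c)
    (Y : Fin r → Finset (Fin c)) (y : Fin r → Fin r → Fin c) (g : Fin c → Fin r → Fin c)
    (ja : Fin r → Fin c) (j : Fin c) : VV c r → VV c r := by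
  classical
  exact fun x => match x with
  | Sum.inl i =>
      if i = j then Sum.inr (Sum.inl j)
      else if Tn c i j then Sum.inl j
      else if h1 : dl c j i ≤ r + 1 then
        (if 2 ≤ dl c j i ∧ ja ⟨dl c j i - 2, by omega⟩ = i then
          Sum.inr (Sum.inr ⟨dl c j i - 2, by omega⟩)
        else Sum.inr (Sum.inl ⟨ad c j 1, ad_lt j.2 (by omega)⟩))
      else if h2 : ∃ a, i ∈ Y a ∧ g i a = j then Sum.inr (Sum.inr h2.choose)
      else Sum.inl j
  | Sum.inr (Sum.inl k) =>
      if h1 : k ≠ j ∧ dl c k j ≤ r then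
        (if ja ⟨dl c k j - 1, by omega⟩ ≠ j then Sum.inr (Sum.inr ⟨dl c k j - 1, by omega⟩)
        else Sum.inl j)
      else Sum.inl j
  | Sum.inr (Sum.inr a) =>
      if ja a = j then Sum.inr (Sum.inl ⟨sb c j (a + 1), sb_lt j.2 (by omega) (by omega)⟩)
      else if h2 : ∃ b, a < b ∧ y a b = j then Sum.inr (Sum.inr h2.choose)
      else Sum.inl j

section

variable {c r : ℕ} {hr : 1 ≤ r} {hcr : 2 * r + 3 ≤ c}
    {Y : Fin r → Finset (Fin c)} {y : Fin r → Fin r → Fin c} {g : Fin c → Fin r → Fin c}
    {ja : Fin r → Fin c}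

lemma par2_P_T {i j : Fin c} (hij : i ≠ j) (hT : Tn c i j) :
    par2 c r hr hcr Y y g ja j (Sum.inl i) = Sum.inl j := by
  simp only [par2]
  rw [if_neg hij, if_pos hT]

lemma par2_P_S {i j : Fin c} (hij : i ≠ j) (hT : ¬ Tn c i j) (h1 : dl c j i ≤ r + 1)
    (h2 : ∀ a : Fin r, a.val + 2 = dl c j i → ja a ≠ i) :
    par2 c r hr hcr Y y g ja j (Sum.inl i) =
      Sum.inr (Sum.inl ⟨ad c j 1, ad_lt j.2 (by omega)⟩) := by
  simp only [par2]
  rw [if_neg hij, if_neg hT, dif_pos h1, if_neg]
  rintro ⟨h3, h4⟩
  exact h2 ⟨dl c j i - 2, by omega⟩ (by simp only; omega) h4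

lemma par2_P_Qs {i j : Fin c} {a : Fin r} (hij : i ≠ j) (hT : ¬ Tn c i j)
    (h1 : a.val + 2 = dl c j i) (h2 : ja a = i) :
    par2 c r hr hcr Y y g ja j (Sum.inl i) = Sum.inr (Sum.inr a) := by
  simp only [par2]
  have ha : (⟨dl c j i - 2, by omega⟩ : Fin r) = a := Fin.ext (by simp only; omega)
  have h3 : dl c j i ≤ r + 1 := by omega
  rw [if_neg hij, if_neg hT, dif_pos h3, if_pos]
  · rw [ha]
  · refine ⟨by omega, ?_⟩
    rw [ha]
    exact h2

lemma par2_P_Q {i j : Fin c} {a : Fin r} (hij : i ≠ j) (hT : ¬ Tn c i j)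
    (h1 : r + 2 ≤ dl c j i) (h2 : i ∈ Y a ∧ g i a = j)
    (huniq : ∀ a', i ∈ Y a' → g i a' = j → a' = a) :
    par2 c r hr hcr Y y g ja j (Sum.inl i) = Sum.inr (Sum.inr a) := by
  simp only [par2]
  have h3 : ∃ a, i ∈ Y a ∧ g i a = j := ⟨a, h2⟩
  rw [if_neg hij, if_neg hT, dif_neg (by omega), dif_pos h3]
  rw [huniq _ h3.choose_spec.1 h3.choose_spec.2]

lemma par2_S_Q {k j : Fin c} {a : Fin r} (hkj : k ≠ j) (h1 : dl c k j = a.val + 1)
    (h2 : ja a ≠ j) :
    par2 c r hr hcr Y y g ja j (Sum.inr (Sum.inl k)) = Sum.inr (Sum.inr a) := by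
  simp only [par2]
  have ha : (⟨dl c k j - 1, by omega⟩ : Fin r) = a := Fin.ext (by simp only; omega)
  rw [dif_pos ⟨hkj, by omega⟩, if_pos]
  · rw [ha]
  · rw [ha]
    exact h2

lemma par2_S_P {k j : Fin c} (h : ∀ a : Fin r, k ≠ j → dl c k j = a.val + 1 → ja a = j) :
    par2 c r hr hcr Y y g ja j (Sum.inr (Sum.inl k)) = Sum.inl j := by
  simp only [par2]
  by_cases h1 : k ≠ j ∧ dl c k j ≤ r
  · rw [dif_pos h1, if_neg]
    have hpos := dl_pos k.2 j.2 (fun h => h1.1 (Fin.ext h))
    intro h2
    exact h2 (h ⟨dl c k j - 1, by omega⟩ h1.1 (by simp only; omega))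
  · rw [dif_neg h1]

lemma par2_Q_S {j : Fin c} {a : Fin r} (h : ja a = j) :
    par2 c r hr hcr Y y g ja j (Sum.inr (Sum.inr a)) =
      Sum.inr (Sum.inl ⟨sb c j (a + 1), sb_lt j.2 (by omega) (by omega)⟩) := by
  simp only [par2]
  rw [if_pos h]

lemma par2_Q_Q {j : Fin c} {a b : Fin r} (h : ja a ≠ j) (hab : a < b) (hy : y a b = j)
    (huniq : ∀ b', a < b' → y a b' = j → b' = b) :
    par2 c r hr hcr Y y g ja j (Sum.inr (Sum.inr a)) = Sum.inr (Sum.inr b) := by
  simp only [par2]
  have h3 : ∃ b, a < b ∧ y a b = j := ⟨b, hab, hy⟩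
  rw [if_neg h, dif_pos h3]
  rw [huniq _ h3.choose_spec.1 h3.choose_spec.2]

lemma par2_Q_P {j : Fin c} {a : Fin r} (h : ja a ≠ j) (hy : ∀ b, a < b → y a b ≠ j) :
    par2 c r hr hcr Y y g ja j (Sum.inr (Sum.inr a)) = Sum.inl j := by
  simp only [par2]
  rw [if_neg h, dif_neg]
  rintro ⟨b, hab, hb⟩
  exact hy b hab hb

/-- All possible values of the parent of a `P` vertex. -/
lemma par2_P_cases {i j : Fin c} (hij : i ≠ j) :
    par2 c r hr hcr Y y g ja j (Sum.inl i) = Sum.inl j ∨
    (par2 c r hr hcr Y y g ja j (Sum.inl i) =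
      Sum.inr (Sum.inl ⟨ad c j 1, ad_lt j.2 (by omega)⟩)) ∨
    (∃ a : Fin r, par2 c r hr hcr Y y g ja j (Sum.inl i) = Sum.inr (Sum.inr a) ∧
      (ja a = i ∨ (i ∈ Y a ∧ g i a = j))) := by
  by_cases hT : Tn c i j
  · exact Or.inl (par2_P_T hij hT)
  · by_cases h1 : dl c j i ≤ r + 1
    · by_cases h2 : ∃ a : Fin r, a.val + 2 = dl c j i ∧ ja a = i
      · obtain ⟨a, ha1, ha2⟩ := h2
        right; right
        exact ⟨a, par2_P_Qs hij hT ha1 ha2, Or.inl ha2⟩
      · right; left
        push Not at h2
        exact par2_P_S hij hT h1 h2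
    · simp only [par2]
      rw [if_neg hij, if_neg hT, dif_neg h1]
      by_cases h2 : ∃ a, i ∈ Y a ∧ g i a = j
      · right; right
        rw [dif_pos h2]
        exact ⟨h2.choose, rfl, Or.inr h2.choose_spec⟩
      · left
        rw [dif_neg h2]

lemma par2_S_cases (k j : Fin c) :
    par2 c r hr hcr Y y g ja j (Sum.inr (Sum.inl k)) = Sum.inl j ∨
    (∃ a : Fin r, k ≠ j ∧ par2 c r hr hcr Y y g ja j (Sum.inr (Sum.inl k)) = Sum.inr (Sum.inr a) ∧
      ja a ≠ j) := by
  by_cases h : ∃ a : Fin r, k ≠ j ∧ dl c k j = a.val + 1 ∧ ja a ≠ j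
  · obtain ⟨a, h1, h2, h3⟩ := h
    exact Or.inr ⟨a, h1, par2_S_Q h1 h2 h3, h3⟩
  · left
    apply par2_S_P
    intro a h1 h2
    by_contra h3
    exact h ⟨a, h1, h2, h3⟩

lemma par2_Q_cases (a : Fin r) (j : Fin c) :
    (ja a ≠ j ∧ par2 c r hr hcr Y y g ja j (Sum.inr (Sum.inr a)) = Sum.inl j) ∨
    (ja a = j ∧ par2 c r hr hcr Y y g ja j (Sum.inr (Sum.inr a)) =
      Sum.inr (Sum.inl ⟨sb c j (a + 1), sb_lt j.2 (by omega) (by omega)⟩)) ∨
    (∃ b : Fin r, ja a ≠ j ∧ a < b ∧ y a b = j ∧
      par2 c r hr hcr Y y g ja j (Sum.inr (Sum.inr a)) = Sum.inr (Sum.inr b)) := by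
  by_cases h : ja a = j
  · exact Or.inr (Or.inl ⟨h, par2_Q_S h⟩)
  · by_cases h2 : ∃ b, a < b ∧ y a b = j
    · right; right
      refine ⟨h2.choose, h, h2.choose_spec.1, h2.choose_spec.2, ?_⟩
      simp only [par2]
      rw [if_neg h, dif_pos h2]
    · left
      refine ⟨h, par2_Q_P h ?_⟩
      intro b hab hb
      exact h2 ⟨b, hab, hb⟩

end

/-- The level function. -/
def lev2 {c r : ℕ} (ja : Fin r → Fin c) (j : Fin c) (x : VV c r) : ℕ :=
  match x with
  | Sum.inl _ => 0
  | Sum.inr (Sum.inl _) => 1
  | Sum.inr (Sum.inr a) => if ja a = j then 0 else 2 + a.val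

theorem exists_cert2 {c r : ℕ} (hc : 1 ≤ c) (hr : 1 ≤ r)
    (h : r * r + 2 * c * r + 3 * c ≤ c * c + r) : Nonempty (Cert (VV c r) c) := by
  classical
  have hcr := c_ge hc hr h
  obtain ⟨Y, y, g, ja, hyY, hyinj, hg1, hginj, hja1, hja2, hja3⟩ := exists_data hc hr h
  refine ⟨{
    pres := fun j x => x ≠ Sum.inl j
    vb := fun j x => x = Sum.inr (Sum.inl j)
    par := fun j x => par2 c r hr hcr Y y g ja j x
    lev := fun j x => lev2 ja j x
    bound := r + 2
    lev_le := ?_
    par_ne := ?_
    vb_unique := ?_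
    incr := ?_
    leaf := ?_
    cover := ?_ }⟩
  · rintro j (i | k | a)
    · simp [lev2]
    · simp [lev2]
    · simp only [lev2]
      split_ifs <;> omega
  · rintro j (i | k | a)
    · by_cases hij : i = j
      · subst hij
        simp [par2]
      · rcases par2_P_cases (r := r) (hr := hr) (hcr := hcr) (Y := Y) (y := y) (g := g)
          (ja := ja) hij with h1 | h1 | ⟨a, h1, _⟩
        · rw [h1]
          intro h2
          exact hij (Sum.inl.inj h2).symm
        · rw [h1]
          intro h2
          cases h2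
        · rw [h1]
          intro h2
          cases h2
    · rcases par2_S_cases (r := r) (hr := hr) (hcr := hcr) (Y := Y) (y := y) (g := g)
          (ja := ja) k j with h1 | ⟨a, _, h1, _⟩
      · rw [h1]
        intro h2
        cases h2
      · rw [h1]
        intro h2
        cases h2
    · rcases par2_Q_cases (hr := hr) (hcr := hcr) (Y := Y) (y := y) (g := g)
          (ja := ja) a j with ⟨_, h1⟩ | ⟨_, h1⟩ | ⟨b, _, hab, _, h1⟩
      · rw [h1]
        intro h2
        cases h2
      · rw [h1]
        intro h2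
        cases h2
      · rw [h1]
        intro h2
        have h3 : b = a := Sum.inr.inj (Sum.inr.inj h2)
        exact absurd h3 (ne_of_gt hab)
  · intro j x x' h1 h2
    rw [h1, h2]
  · -- incr
    rintro j (i | k | a) hpres hnvb hpp
    · have hij : i ≠ j := fun h => hpres (by rw [h])
      rcases par2_P_cases (r := r) (hr := hr) (hcr := hcr) (Y := Y) (y := y) (g := g)
          (ja := ja) hij with h1 | h1 | ⟨a, h1, h2⟩
      · exact absurd h1 hpp
      · rw [h1]
        refine ⟨?_, ?_⟩
        · intro h2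
          have h3 : ad c j 1 = j.val := congrArg Fin.val (Sum.inl.inj (Sum.inr.inj h2))
          have h4 := j.2
          unfold ad at h3
          split_ifs at h3 <;> omega
        · simp [lev2]
      · rw [h1]
        refine ⟨by simp, ?_⟩
        have hjaj : ja a ≠ j := by
          rcases h2 with h2 | ⟨h2, h3⟩
          · rw [h2]
            exact hij
          · rw [← h3]
            exact hja3 i a h2
        simp only [lev2]
        rw [if_neg hjaj]
        omega
    · rcases par2_S_cases (r := r) (hr := hr) (hcr := hcr) (Y := Y) (y := y) (g := g)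
          (ja := ja) k j with h1 | ⟨a, _, h1, h2⟩
      · exact absurd h1 hpp
      · rw [h1]
        refine ⟨by simp, ?_⟩
        simp only [lev2]
        rw [if_neg h2]
        omega
    · rcases par2_Q_cases (hr := hr) (hcr := hcr) (Y := Y) (y := y) (g := g)
          (ja := ja) a j with ⟨_, h1⟩ | ⟨h0, h1⟩ | ⟨b, h0, hab, hyb, h1⟩
      · exact absurd h1 hpp
      · rw [h1]
        refine ⟨?_, ?_⟩
        · intro h2
          have h3 : sb c j (a + 1) = j.val := congrArg Fin.val (Sum.inl.inj (Sum.inr.inj h2))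
          exact sb_ne j.2 (by omega) (by omega) h3
        · simp only [lev2]
          rw [if_pos h0]
          omega
      · rw [h1]
        refine ⟨by simp, ?_⟩
        have hjb : ja b ≠ j := by
          rw [← hyb]
          exact hja2 b a hab
        simp only [lev2]
        rw [if_neg h0, if_neg hjb]
        have : a.val < b.val := hab
        omega
  · -- leaf
    rintro (i | k | a)
    · -- a colour different from `i`
      obtain ⟨j, hj⟩ : ∃ j : Fin c, j ≠ i := by
        by_cases hi : i.val = 0
        · exact ⟨⟨1, by omega⟩, fun h => by have := congrArg Fin.val h; simp only at this; omega⟩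
        · exact ⟨⟨0, by omega⟩, fun h => by have := congrArg Fin.val h; simp only at this; omega⟩
      refine ⟨j, ?_, Or.inr rfl⟩
      intro h2
      exact hj (Sum.inl.inj h2).symm
    · refine ⟨k, ?_, Or.inl rfl⟩
      intro h2
      cases h2
    · refine ⟨ja a, ?_, Or.inr ?_⟩
      · intro h2
        cases h2
      · simp [lev2]
  · -- cover
    -- pairs `P P`
    have hPP : ∀ i j : Fin c, i ≠ j → Tn c i j →
        ∃ l : Fin c, (Sum.inl i : VV c r) ≠ Sum.inl l ∧
          ¬ ((Sum.inl i : VV c r) = Sum.inr (Sum.inl l)) ∧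
          par2 c r hr hcr Y y g ja l (Sum.inl i) = Sum.inl j := by
      intro i j hij hT
      exact ⟨j, fun h => hij (Sum.inl.inj h), by simp, par2_P_T hij hT⟩
    -- pairs `P S`
    have hPS : ∀ i k : Fin c,
        (∃ l : Fin c, (Sum.inl i : VV c r) ≠ Sum.inl l ∧
          ¬ ((Sum.inl i : VV c r) = Sum.inr (Sum.inl l)) ∧
          par2 c r hr hcr Y y g ja l (Sum.inl i) = Sum.inr (Sum.inl k)) ∨
        (∃ l : Fin c, (Sum.inr (Sum.inl k) : VV c r) ≠ Sum.inl l ∧
          ¬ ((Sum.inr (Sum.inl k) : VV c r) = Sum.inr (Sum.inl l)) ∧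
          par2 c r hr hcr Y y g ja l (Sum.inr (Sum.inl k)) = Sum.inl i) := by
      intro i k
      by_cases hik : k = i
      · subst hik
        left
        have hl : sb c k 1 < c := sb_lt k.2 (by omega) (by omega)
        have hne : k ≠ ⟨sb c k 1, hl⟩ := by
          intro h
          exact sb_ne k.2 (by omega) (by omega) (congrArg Fin.val h).symm
        have hd : dl c (sb c k 1) k = 1 := dl_sb k.2 (by omega)
        refine ⟨⟨sb c k 1, hl⟩, fun h => hne (Sum.inl.inj h), by simp, ?_⟩
        rw [par2_P_S hne (not_Tn (by simp only; omega)) (by simp only; omega)]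
        · congr 2
          apply Fin.ext
          simp only
          exact ad_sb k.2 (by omega)
        · intro a ha
          simp only at ha
          omega
      · have hdpos := dl_pos k.2 i.2 (fun h => hik (Fin.ext h))
        have hdlt := dl_lt k.2 i.2
        by_cases hd : r < dl c k i
        · right
          refine ⟨i, by simp, ?_, ?_⟩
          · intro h
            exact hik (Sum.inl.inj (Sum.inr.inj h))
          · apply par2_S_P
            intro a _ ha
            have := a.2
            omega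
        · push Not at hd
          have ha0 : dl c k i - 1 < r := by omega
          by_cases hja : ja ⟨dl c k i - 1, ha0⟩ = i
          · right
            refine ⟨i, by simp, ?_, ?_⟩
            · intro h
              exact hik (Sum.inl.inj (Sum.inr.inj h))
            · apply par2_S_P
              intro a _ ha
              have : a = ⟨dl c k i - 1, ha0⟩ := Fin.ext (by simp only; omega)
              rw [this]
              exact hja
          · left
            have hl : sb c k 1 < c := sb_lt k.2 (by omega) (by omega)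
            have hd2 : dl c (sb c k 1) i = dl c k i + 1 := dl_pred i.2 k.2 (by omega)
            have hne : i ≠ ⟨sb c k 1, hl⟩ := by
              intro h
              have h3 : i.val = sb c k 1 := congrArg Fin.val h
              rw [← h3] at hd2
              unfold dl at hd2
              split_ifs at hd2 <;> omega
            refine ⟨⟨sb c k 1, hl⟩, fun h => hne (Sum.inl.inj h), by simp, ?_⟩
            rw [par2_P_S hne (not_Tn (by simp only; omega)) (by simp only; omega)]
            · congr 2
              apply Fin.ext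
              simp only
              exact ad_sb k.2 (by omega)
            · intro a ha
              simp only at ha
              have : a = ⟨dl c k i - 1, ha0⟩ := Fin.ext (by simp only; omega)
              rw [this]
              exact hja
    -- pairs `P Q`
    have hPQ : ∀ (i : Fin c) (a : Fin r),
        (∃ l : Fin c, (Sum.inl i : VV c r) ≠ Sum.inl l ∧
          ¬ ((Sum.inl i : VV c r) = Sum.inr (Sum.inl l)) ∧
          par2 c r hr hcr Y y g ja l (Sum.inl i) = Sum.inr (Sum.inr a)) ∨
        (∃ l : Fin c, (Sum.inr (Sum.inr a) : VV c r) ≠ Sum.inl l ∧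
          ¬ ((Sum.inr (Sum.inr a) : VV c r) = Sum.inr (Sum.inl l)) ∧
          par2 c r hr hcr Y y g ja l (Sum.inr (Sum.inr a)) = Sum.inl i) := by
      intro i a
      have ha := a.2
      by_cases hja : ja a = i
      · left
        have hl : sb c i (a + 2) < c := sb_lt i.2 (by omega) (by omega)
        have hne : i ≠ ⟨sb c i (a + 2), hl⟩ := by
          intro h
          exact sb_ne i.2 (by omega) (by omega) (congrArg Fin.val h).symm
        have hd : dl c (sb c i (a + 2)) i = a + 2 := dl_sb i.2 (by omega)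
        refine ⟨⟨sb c i (a + 2), hl⟩, fun h => hne (Sum.inl.inj h), by simp, ?_⟩
        exact par2_P_Qs hne (not_Tn (by simp only; omega)) (by simp only; omega) hja
      · by_cases hY : i ∈ Y a
        · left
          obtain ⟨h1, h2⟩ := hg1 i a hY
          have hne : i ≠ g i a := by
            intro h
            rw [← h] at h1
            unfold dl at h1
            split_ifs at h1 <;> omega
          refine ⟨g i a, fun h => hne (Sum.inl.inj h), by simp, ?_⟩
          exact par2_P_Q hne (not_Tn' h2 hc) h1 ⟨hY, rfl⟩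
            (fun a' h3 h4 => hginj i a' a h3 hY h4)
        · right
          refine ⟨i, by simp, by simp, ?_⟩
          apply par2_Q_P hja
          intro b hab hb
          apply hY
          rw [← hb]
          exact hyY a b hab
    -- pairs `S Q`
    have hSQ : ∀ (k : Fin c) (a : Fin r),
        (∃ l : Fin c, (Sum.inr (Sum.inl k) : VV c r) ≠ Sum.inl l ∧
          ¬ ((Sum.inr (Sum.inl k) : VV c r) = Sum.inr (Sum.inl l)) ∧
          par2 c r hr hcr Y y g ja l (Sum.inr (Sum.inl k)) = Sum.inr (Sum.inr a)) ∨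
        (∃ l : Fin c, (Sum.inr (Sum.inr a) : VV c r) ≠ Sum.inl l ∧
          ¬ ((Sum.inr (Sum.inr a) : VV c r) = Sum.inr (Sum.inl l)) ∧
          par2 c r hr hcr Y y g ja l (Sum.inr (Sum.inr a)) = Sum.inr (Sum.inl k)) := by
      intro k a
      have ha := a.2
      have hl : ad c k (a + 1) < c := ad_lt k.2 (by omega)
      have hd : dl c k (ad c k (a + 1)) = a + 1 := dl_ad k.2 (by omega)
      by_cases hja : ja a = ⟨ad c k (a + 1), hl⟩
      · right
        refine ⟨⟨ad c k (a + 1), hl⟩, by simp, by simp, ?_⟩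
        rw [par2_Q_S hja]
        congr 2
        apply Fin.ext
        simp only
        exact sb_ad k.2 (by omega)
      · left
        have hne : k ≠ ⟨ad c k (a + 1), hl⟩ := by
          intro h
          have h3 : k.val = ad c k (a + 1) := congrArg Fin.val h
          have h4 := k.2
          unfold ad at h3
          split_ifs at h3 <;> omega
        refine ⟨⟨ad c k (a + 1), hl⟩, by simp, ?_, ?_⟩
        · intro h
          exact hne (Sum.inl.inj (Sum.inr.inj h))
        · exact par2_S_Q hne hd hja
    -- pairs `Q Q`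
    have hQQ : ∀ (a b : Fin r), a < b →
        (∃ l : Fin c, (Sum.inr (Sum.inr a) : VV c r) ≠ Sum.inl l ∧
          ¬ ((Sum.inr (Sum.inr a) : VV c r) = Sum.inr (Sum.inl l)) ∧
          par2 c r hr hcr Y y g ja l (Sum.inr (Sum.inr a)) = Sum.inr (Sum.inr b)) := by
      intro a b hab
      refine ⟨y a b, by simp, by simp, ?_⟩
      apply par2_Q_Q _ hab rfl
      · intro b' hab' hb'
        exact hyinj a b' b hab' hab hb'
      · intro h
        exact hja1 a (by rw [h]; exact hyY a b hab)
    rintro (i | k | a) (i' | k' | a') hxy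
    · right
      have hne : i ≠ i' := fun h => hxy (by rw [h])
      rcases Tn_total i.2 i'.2 (fun h => hne (Fin.ext h)) with hT | hT
      · exact Or.inl (hPP i i' hne hT)
      · exact Or.inr (hPP i' i hne.symm hT)
    · right
      exact hPS i k'
    · right
      exact hPQ i a'
    · right
      exact (hPS i' k).symm
    · left
      exact ⟨k, k', by simp, rfl, by simp, rfl⟩
    · right
      exact hSQ k a'
    · right
      exact (hPQ i' a).symm
    · right
      exact (hSQ k' a).symm
    · right
      have hne : a ≠ a' := fun h => hxy (by rw [h])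
      rcases lt_or_gt_of_ne hne with h1 | h1
      · exact Or.inl (hQQ a a' h1)
      · exact Or.inr (hQQ a' a h1)

end Pool.Agent.MP_4befb3_co
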