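import Mathlib
import Pool.Agent.Lib.MP_4befb3_co.Geom

/-!
The lower bound for the `1/2`-chromatic number of the continuous complete graph.
-/

namespace Pool.Agent.MP_4befb3_co

variable {V : Type*} [DecidableEq V]

lemma hb_zero (x w w' : V) : hb x w 0 = hb x w' 0 := by
  unfold hb
  rw [edgePt_zero, edgePt_zero]

/-- The edge carrying the centre is determined by the ball. -/
lemma hb_edge_unique {u v u' v' : V} {t t' : ℝ} (huv : u ≠ v) (huv' : u' ≠ v')
    (ht0 : 0 < t) (ht : t ≤ 1 / 2) (ht0' : 0 < t') (ht' : t' ≤ 1 / 2)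
    (h : hb u v t = hb u' v' t') : s(u, v) = s(u', v') := by
  have hm : edgePt u v (1 / 2) ∈ hb u v t := by
    rw [mem_hb_iff huv huv.symm ht0.le ht (by norm_num) (by norm_num)]
    unfold reach
    rw [if_pos rfl]
    linarith
  rw [h] at hm
  have hu : u = u' ∨ v = u' := by
    by_contra hcon
    push Not at hcon
    exact not_mem_hb huv' huv hcon.1 hcon.2 ht0'.le ht' (by norm_num) (by norm_num) hm
  rcases hu with rfl | rfl
  · rw [mem_hb_iff huv' huv.symm ht0'.le ht' (by norm_num) (by norm_num)] at hm
    unfold reach at hm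
    split_ifs at hm with hc
    · rw [hc]
    · linarith
  · rw [edgePt_swap, mem_hb_iff huv' huv ht0'.le ht' (by norm_num) (by norm_num)] at hm
    unfold reach at hm
    split_ifs at hm with hc
    · rw [hc, Sym2.eq_swap]
    · linarith

lemma hb_ne_vertex {u v x w : V} {t : ℝ} (huv : u ≠ v) (hxw : x ≠ w)
    (ht0 : 0 < t) (ht : t ≤ 1 / 2) (h : hb u v t = hb x w 0) : False := by
  have hm : vertexPt u ∈ hb x w 0 := by
    rw [← h]
    exact vertexPt_mem_hb_self huv ht0.le ht
  have hux : u = x := by
    by_contra hne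
    have := (vertexPt_mem_hb hxw hne (le_refl _) (by norm_num) hm).2
    norm_num at this
  subst hux
  have hm2 : edgePt u v (1 / 2 + t) ∈ hb u v t := by
    rw [mem_hb_iff huv huv.symm ht0.le ht (by linarith) (by linarith)]
    unfold reach
    rw [if_pos rfl]
  rw [h, mem_hb_iff hxw huv.symm (le_refl _) (by norm_num) (by linarith) (by linarith)] at hm2
  unfold reach at hm2
  split_ifs at hm2 <;> linarith

lemma hb_vertex_inj {x y w w' : V} (hxw : x ≠ w) (hyw : y ≠ w') (h : hb x w 0 = hb y w' 0) :
    x = y := by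
  by_contra hne
  have hm : vertexPt x ∈ hb y w' 0 := by
    rw [← h]
    exact vertexPt_mem_hb_self hxw (le_refl _) (by norm_num)
  have := (vertexPt_mem_hb hyw hne (le_refl _) (by norm_num) hm).2
  norm_num at this

lemma exists_pos_le {ι : Type*} [Finite ι] (g : ι → ℝ) (P : ι → Prop)
    (hg : ∀ i, P i → 0 < g i) : ∃ δ : ℝ, 0 < δ ∧ ∀ i, P i → δ ≤ g i := by
  classical
  by_cases hne : Nonempty {i // P i}
  · obtain ⟨i0, hi0⟩ := Finite.exists_min (fun i : {i // P i} => g i.1)
    exact ⟨g i0.1, hg _ i0.2, fun i hi => hi0 ⟨i, hi⟩⟩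
  · exact ⟨1, one_pos, fun i hi => absurd ⟨⟨i, hi⟩⟩ hne⟩

theorem lower_bound [Fintype V] [Nontrivial V] (c : ℕ)
    (h : IsColourable (⊤ : SimpleGraph V) (1 / 2) c) :
    Fintype.card V ≤ 2 * c ∨
      Fintype.card V * (Fintype.card V - 1) + 3 * c ≤
        2 * c * (Fintype.card V - 1) + c ^ 2 := by
  classical
  obtain ⟨ℬ, hball, hcov, f, hf⟩ := h
  -- representation of balls
  have hrep : ∀ B : ℬ, ∃ (u v : V) (t : ℝ), u ≠ v ∧ 0 ≤ t ∧ t ≤ 1 / 2 ∧
      (B : Set (V → ℝ)) = hb u v t := by
    intro B
    obtain ⟨p, hp, hB⟩ := hball B B.2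
    obtain ⟨u, v, t, h1, h2, h3, h4⟩ := exists_rep hp
    exact ⟨u, v, t, h1, h2, h3, by rw [hB, h4]; rfl⟩
  choose near dir pos hnd hpos0 hpos hBeq using hrep
  -- two balls with the same colour and the same near end agree
  have hinj : ∀ B B' : ℬ, f B = f B' → near B = near B' → B = B' := by
    intro B B' hff hnn
    by_contra hne
    refine hf B B' hne ⟨vertexPt (near B), ?_, ?_⟩ hff
    · rw [hBeq B]
      exact vertexPt_mem_hb_self (hnd B) (hpos0 B) (hpos B)
    · rw [hBeq B', hnn]
      exact vertexPt_mem_hb_self (hnd B') (hpos0 B') (hpos B')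
  have hfin : Finite ℬ := by
    apply Finite.of_injective (fun B : ℬ => (f B, near B))
    intro B B' hBB
    simp only [Prod.mk.injEq] at hBB
    exact hinj B B' hBB.1 hBB.2
  haveI : Fintype ℬ := Fintype.ofFinite ℬ
  set n := Fintype.card V with hn
  have hn2 : 2 ≤ n := by
    have := Fintype.one_lt_card (α := V)
    omega
  -- at most `n - 1` balls of each colour
  have hcol : ∀ i : Fin c, (Finset.univ.filter (fun B : ℬ => f B = i)).card ≤ n - 1 := by
    intro i
    set Fi := Finset.univ.filter (fun B : ℬ => f B = i) with hFi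
    have hinjOn : Set.InjOn near (Fi : Set ℬ) := by
      intro B hB B' hB' hnn
      have h1 : f B = i := by simpa [hFi] using hB
      have h2 : f B' = i := by simpa [hFi] using hB'
      exact hinj B B' (h1.trans h2.symm) hnn
    have himg : (Fi.image near).card = Fi.card := Finset.card_image_of_injOn hinjOn
    have hnotall : Fi.image near ≠ Finset.univ := by
      intro hall
      have hFne : Fi.Nonempty := by
        rw [← Finset.image_nonempty (f := near), hall]
        exact Finset.univ_nonempty
      obtain ⟨B, hB, hmax⟩ := Finset.exists_max_image Fi pos hFne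
      have hd : dir B ∈ Fi.image near := by rw [hall]; exact Finset.mem_univ _
      obtain ⟨B', hB', hnB'⟩ := Finset.mem_image.1 hd
      have hfB : f B = i := by simpa [hFi] using hB
      have hfB' : f B' = i := by simpa [hFi] using hB'
      have hne : B ≠ B' := by
        intro hbb
        rw [← hbb] at hnB'
        exact hnd B hnB'
      have hle : pos B' ≤ pos B := hmax B' hB'
      refine hf B B' hne ⟨edgePt (near B) (dir B) (1 / 2 + pos B), ?_, ?_⟩
        (hfB.trans hfB'.symm)
      · rw [hBeq B, mem_hb_iff (hnd B) (hnd B).symm (hpos0 B) (hpos B)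
          (by linarith [hpos0 B]) (by linarith [hpos B])]
        unfold reach
        rw [if_pos rfl]
      · rw [hBeq B', hnB', edgePt_swap]
        have hd' : dir B ≠ dir B' := by
          rw [← hnB']
          exact hnd B'
        rw [mem_hb_iff hd' (hnd B) (hpos0 B') (hpos B')
          (by linarith [hpos B]) (by linarith [hpos0 B])]
        have h0 := hpos0 B'
        unfold reach
        split_ifs <;> linarith
    have hlt : (Fi.image near).card < n := by
      rw [hn, ← Finset.card_univ]
      exact Finset.card_lt_card (Finset.ssubset_univ_iff.2 hnotall)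
    omega
  have hcard : Fintype.card ℬ ≤ c * (n - 1) := by
    have h1 : Fintype.card ℬ = ∑ i : Fin c, (Finset.univ.filter (fun B : ℬ => f B = i)).card := by
      rw [← Finset.card_univ]
      exact Finset.card_eq_sum_card_fiberwise (fun B _ => Finset.mem_univ (f B))
    rw [h1]
    calc ∑ i : Fin c, (Finset.univ.filter (fun B : ℬ => f B = i)).card
        ≤ ∑ _i : Fin c, (n - 1) := Finset.sum_le_sum (fun i _ => hcol i)
      _ = c * (n - 1) := by simp
  -- vertex balls and edges with an interior centre
  let isS : V → Prop := fun x => ∃ w, x ≠ w ∧ hb x w 0 ∈ ℬ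
  let isE : Sym2 V → Prop := fun e => ∃ (u v : V) (t : ℝ), e = s(u, v) ∧ u ≠ v ∧ 0 < t ∧
    t ≤ 1 / 2 ∧ hb u v t ∈ ℬ
  let S : Finset V := Finset.univ.filter isS
  let E : Finset (Sym2 V) := Finset.univ.filter isE
  have hSmem : ∀ x, x ∈ S ↔ isS x := fun x => by simp [S]
  have hEmem : ∀ e, e ∈ E ↔ isE e := fun e => by simp [E]
  -- an edge without interior centre has its ends in `S`
  have hES : ∀ x y : V, x ≠ y → ¬ isE s(x, y) → isS x := by
    intro x y hxy hnE
    by_contra hnS
    obtain ⟨δ, hδ, hδle⟩ := exists_pos_le (fun B : ℬ => pos B) (fun B => near B = x) (by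
      intro B hB
      rcases (hpos0 B).eq_or_lt with h0 | h0
      · exfalso
        apply hnS
        refine ⟨dir B, ?_, ?_⟩
        · rw [← hB]
          exact hnd B
        · rw [h0, ← hB, ← hBeq B]
          exact B.2
      · exact h0)
    set s : ℝ := 1 / 2 - (min δ (1 / 4)) / 2 with hs
    have hm1 : min δ (1 / 4) ≤ δ := min_le_left _ _
    have hm2 : min δ (1 / 4) ≤ 1 / 4 := min_le_right _ _
    have hm3 : 0 < min δ (1 / 4) := lt_min hδ (by norm_num)
    have hs0 : 0 < s := by rw [hs]; linarith
    have hs1 : s < 1 / 2 := by rw [hs]; linarith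
    have hs2 : 1 / 2 - δ < s := by rw [hs]; linarith
    have hq : edgePt x y s ∈ ⋃₀ ℬ := by
      rw [hcov]
      exact edgePt_mem hxy hs0.le (by linarith)
    obtain ⟨B0, hB0, hqB⟩ := hq
    let B : ℬ := ⟨B0, hB0⟩
    have hqB' : edgePt x y s ∈ hb (near B) (dir B) (pos B) := by
      rw [← hBeq B]
      exact hqB
    have hBmem : hb (near B) (dir B) (pos B) ∈ ℬ := by
      rw [← hBeq B]
      exact B.2
    have hu : x = near B ∨ y = near B := by
      by_contra hcon
      push Not at hcon
      exact not_mem_hb (hnd B) hxy hcon.1 hcon.2 (hpos0 B) (hpos B) hs0 (by linarith) hqB'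
    rcases hu with hu | hu
    · have hδB : δ ≤ pos B := hδle B hu.symm
      rw [← hu] at hqB' hBmem
      have hxd : x ≠ dir B := by rw [hu]; exact hnd B
      rw [mem_hb_iff hxd hxy.symm (hpos0 B) (hpos B) hs0.le (by linarith)] at hqB'
      unfold reach at hqB'
      split_ifs at hqB' with hc
      · apply hnE
        exact ⟨x, y, pos B, rfl, hxy, by linarith, hpos B, by rw [hc]; exact hBmem⟩
      · linarith
    · rw [← hu] at hqB' hBmem
      have hyd : y ≠ dir B := by rw [hu]; exact hnd B
      rw [edgePt_swap, mem_hb_iff hyd hxy (hpos0 B) (hpos B) (by linarith) (by linarith)] at hqB'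
      unfold reach at hqB'
      split_ifs at hqB' with hc
      · rcases (hpos0 B).eq_or_lt with h0 | h0
        · rw [← h0] at hqB'
          linarith
        · apply hnE
          exact ⟨y, x, pos B, Sym2.eq_swap, hxy.symm, h0, hpos B, by rw [hc]; exact hBmem⟩
      · have := hpos0 B
        linarith
  -- `|E| + |S| ≤ |ℬ|`
  have hcount : E.card + S.card ≤ c * (n - 1) := by
    refine le_trans ?_ hcard
    have hEx : ∀ e : {e // e ∈ E}, ∃ (u v : V) (t : ℝ), (e : Sym2 V) = s(u, v) ∧ u ≠ v ∧ 0 < t ∧
        t ≤ 1 / 2 ∧ hb u v t ∈ ℬ := fun e => (hEmem e.1).1 e.2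
    have hSx : ∀ x : {x // x ∈ S}, ∃ w, (x : V) ≠ w ∧ hb (x : V) w 0 ∈ ℬ :=
      fun x => (hSmem x.1).1 x.2
    choose eu ev et h1 h2 h3 h4 h5 using hEx
    choose sw h6 h7 using hSx
    let F : {e // e ∈ E} ⊕ {x // x ∈ S} → ℬ := fun k => match k with
      | Sum.inl e => ⟨_, h5 e⟩
      | Sum.inr x => ⟨_, h7 x⟩
    have hF : Function.Injective F := by
      rintro (e | x) (e' | x') hEq
      · have hEq' : hb (eu e) (ev e) (et e) = hb (eu e') (ev e') (et e') :=
          congrArg Subtype.val hEq
        have := hb_edge_unique (h2 e) (h2 e') (h3 e) (h4 e) (h3 e') (h4 e') hEq'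
        rw [← h1 e, ← h1 e'] at this
        rw [Subtype.ext this]
      · exfalso
        have hEq' : hb (eu e) (ev e) (et e) = hb (x' : V) (sw x') 0 :=
          congrArg Subtype.val hEq
        exact hb_ne_vertex (h2 e) (h6 x') (h3 e) (h4 e) hEq'
      · exfalso
        have hEq' : hb (x : V) (sw x) 0 = hb (eu e') (ev e') (et e') :=
          congrArg Subtype.val hEq
        exact hb_ne_vertex (h2 e') (h6 x) (h3 e') (h4 e') hEq'.symm
      · have hEq' : hb (x : V) (sw x) 0 = hb (x' : V) (sw x') 0 :=
          congrArg Subtype.val hEq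
        have := hb_vertex_inj (h6 x) (h6 x') hEq'
        rw [Subtype.ext this]
    have := Fintype.card_le_of_injective F hF
    simpa using this
  -- `|S| ≤ c`
  have hSc : S.card ≤ c := by
    have hSx : ∀ x : {x // x ∈ S}, ∃ w, (x : V) ≠ w ∧ hb (x : V) w 0 ∈ ℬ :=
      fun x => (hSmem x.1).1 x.2
    choose sw h6 h7 using hSx
    let F : {x // x ∈ S} → Fin c := fun x => f ⟨_, h7 x⟩
    have hF : Function.Injective F := by
      intro x x' hEq
      by_contra hne
      have hne' : (x : V) ≠ (x' : V) := fun h => hne (Subtype.ext h)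
      have hBne : (⟨_, h7 x⟩ : ℬ) ≠ ⟨_, h7 x'⟩ := by
        intro hB
        exact hne' (hb_vertex_inj (h6 x) (h6 x') (congrArg Subtype.val hB))
      refine hf _ _ hBne ⟨edgePt (x : V) (x' : V) (1 / 2), ?_, ?_⟩ hEq
      · show _ ∈ hb (x : V) (sw x) 0
        rw [mem_hb_iff (h6 x) (Ne.symm hne') (le_refl _) (by norm_num) (by norm_num)
          (by norm_num)]
        unfold reach
        split_ifs <;> norm_num
      · show _ ∈ hb (x' : V) (sw x') 0
        rw [edgePt_swap, mem_hb_iff (h6 x') hne' (le_refl _) (by norm_num) (by norm_num)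
          (by norm_num)]
        unfold reach
        split_ifs <;> norm_num
    have := Fintype.card_le_of_injective F hF
    simpa using this
  -- counting ordered pairs
  have hpairs : n * n - n ≤ 2 * E.card + (S.card * S.card - S.card) := by
    have h1 : (Finset.univ : Finset V).offDiag.card = n * n - n := by
      rw [Finset.offDiag_card, Finset.card_univ]
    have h2 : S.offDiag.card = S.card * S.card - S.card := Finset.offDiag_card S
    have h3 : ((Finset.univ : Finset V).offDiag.filter (fun p => s(p.1, p.2) ∈ E)).card ≤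
        2 * E.card := by
      apply Finset.card_le_mul_card_image_of_maps_to (f := fun p : V × V => s(p.1, p.2))
      · intro p hp
        exact (Finset.mem_filter.1 hp).2
      · intro e he
        induction e using Sym2.ind with
        | _ a b =>
          have hsub : (((Finset.univ : Finset V).offDiag.filter
              (fun p => s(p.1, p.2) ∈ E)).filter (fun p => s(p.1, p.2) = s(a, b))) ⊆
              {(a, b), (b, a)} := by
            intro p hp
            have := (Finset.mem_filter.1 hp).2
            rw [Sym2.eq_iff] at this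
            rcases this with ⟨h1, h2⟩ | ⟨h1, h2⟩
            · simp [Prod.ext_iff, h1, h2]
            · simp [Prod.ext_iff, h1, h2]
          exact le_trans (Finset.card_le_card hsub) Finset.card_le_two
    have h4 : ((Finset.univ : Finset V).offDiag.filter (fun p => ¬ s(p.1, p.2) ∈ E)).card ≤
        S.offDiag.card := by
      apply Finset.card_le_card
      intro p hp
      obtain ⟨hp1, hp2⟩ := Finset.mem_filter.1 hp
      have hne : p.1 ≠ p.2 := (Finset.mem_offDiag.1 hp1).2.2
      rw [hEmem] at hp2
      rw [Finset.mem_offDiag]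
      refine ⟨(hSmem _).2 (hES _ _ hne hp2), (hSmem _).2 (hES _ _ hne.symm ?_), hne⟩
      rw [Sym2.eq_swap]
      exact hp2
    have h5 := Finset.card_filter_add_card_filter_not (s := (Finset.univ : Finset V).offDiag)
      (fun p : V × V => s(p.1, p.2) ∈ E)
    omega
  -- arithmetic
  obtain ⟨m, hm⟩ : ∃ m, n = m + 1 := ⟨n - 1, by omega⟩
  have hmpos : 1 ≤ m := by omega
  rw [hm] at hcount hpairs ⊢
  simp only [Nat.add_sub_cancel] at hcount ⊢
  have hp' : (m + 1) * (m + 1) - (m + 1) = (m + 1) * m := by
    rw [Nat.mul_succ]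
    omega
  rw [hp'] at hpairs
  by_cases hs3 : S.card ≤ 3
  · left
    have hss : S.card * S.card - S.card ≤ 2 * S.card := by
      have : S.card * S.card ≤ 3 * S.card := Nat.mul_le_mul_right _ hs3
      omega
    have h6 : (m + 1) * m ≤ 2 * (c * m) := by omega
    have h7 : (m + 1) * m ≤ (2 * c) * m := by
      calc (m + 1) * m ≤ 2 * (c * m) := h6
        _ = (2 * c) * m := by ring
    exact Nat.le_of_mul_le_mul_right h7 hmpos
  · right
    push Not at hs3
    obtain ⟨a, ha⟩ : ∃ a, S.card = a + 3 := ⟨S.card - 3, by omega⟩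
    obtain ⟨b, hb⟩ : ∃ b, c = b + 3 := ⟨c - 3, by omega⟩
    rw [ha] at hcount hpairs hSc
    have hab : a ≤ b := by omega
    have h8 : (a + 3) * (a + 3) - (a + 3) = (a + 3) * (a + 2) := by
      rw [Nat.mul_succ (a + 3) (a + 2)]
      omega
    rw [h8] at hpairs
    have h9 : a * a ≤ b * b := Nat.mul_le_mul hab hab
    subst hb
    nlinarith

end Pool.Agent.MP_4befb3_co
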