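import Mathlib
import Pool.Agent.Lib.MP_4befb3_co.Upper

/-!
The certificate for `n ≤ 2c`, `3 ≤ n`.
-/

namespace Pool.Agent.MP_4befb3_co

/-- Parent function of the first scheme, on natural numbers. -/
def pv (n i x : ℕ) : ℕ :=
  if n ≤ 2 * i then (if x = 0 then 1 else 0)
  else if x / 2 = i then (if x % 2 = 1 then 2 * i else (if x = 0 then 1 else 0))
  else if i < x / 2 then 2 * i + x % 2
  else (if 2 * i + (1 - x % 2) < n then 2 * i + (1 - x % 2) else 2 * i)

lemma pv_lt {n i x : ℕ} (hn : 3 ≤ n) (hx : x < n) : pv n i x < n := by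
  unfold pv
  split_ifs <;> omega

lemma pv_ne {n i x : ℕ} : pv n i x ≠ x := by
  unfold pv
  split_ifs <;> omega

/-- The certificate for `3 ≤ n ≤ 2c`. -/
def cert1 (n c : ℕ) (hn : 3 ≤ n) (hc : n ≤ 2 * c) : Cert (Fin n) c where
  pres i x := 2 * i.val < n ∧ x.val ≠ 2 * i.val
  vb _ _ := False
  par i x := ⟨pv n i.val x.val, pv_lt hn x.2⟩
  lev i x := if x.val / 2 = i.val then 1 else 0
  bound := 1
  lev_le i x := by split_ifs <;> omega
  par_ne i x := by
    intro h
    exact pv_ne (congrArg Fin.val h)
  vb_unique _ _ _ h _ := h.elim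
  incr i x h1 _ h3 := by
    refine ⟨fun h => h, ?_⟩
    obtain ⟨i, hi⟩ := i
    obtain ⟨x, hx⟩ := x
    simp only [pv] at h1 h3 ⊢
    split_ifs at h3 ⊢ <;> omega
  leaf x := by
    by_cases h0 : x.val / 2 = 0
    · refine ⟨⟨1, by omega⟩, ⟨by simp only; omega, by simp only; omega⟩, Or.inr ?_⟩
      simp only
      rw [if_neg (by omega)]
    · refine ⟨⟨0, by omega⟩, ⟨by simp only; omega, by simp only; omega⟩, Or.inr ?_⟩
      simp only
      rw [if_neg (by omega)]
  cover x y hxy := by
    obtain ⟨x, hx⟩ := x
    obtain ⟨y, hy⟩ := y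
    have hne : x ≠ y := fun h => hxy (Fin.ext h)
    right
    -- the cases
    rcases lt_trichotomy (x / 2) (y / 2) with h | h | h
    · by_cases hs : x % 2 = y % 2
      · right
        refine ⟨⟨x / 2, by omega⟩, ⟨by simp only; omega, by simp only; omega⟩,
          fun h => h, Fin.ext ?_⟩
        simp only [pv]
        split_ifs <;> omega
      · left
        refine ⟨⟨y / 2, by omega⟩, ⟨by simp only; omega, by simp only; omega⟩,
          fun h => h, Fin.ext ?_⟩
        simp only [pv]
        split_ifs <;> omega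
    · by_cases hs : x % 2 = 0
      · right
        refine ⟨⟨x / 2, by omega⟩, ⟨by simp only; omega, by simp only; omega⟩,
          fun h => h, Fin.ext ?_⟩
        simp only [pv]
        split_ifs <;> omega
      · left
        refine ⟨⟨x / 2, by omega⟩, ⟨by simp only; omega, by simp only; omega⟩,
          fun h => h, Fin.ext ?_⟩
        simp only [pv]
        split_ifs <;> omega
    · by_cases hs : x % 2 = y % 2
      · left
        refine ⟨⟨y / 2, by omega⟩, ⟨by simp only; omega, by simp only; omega⟩,
          fun h => h, Fin.ext ?_⟩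
        simp only [pv]
        split_ifs <;> omega
      · right
        refine ⟨⟨x / 2, by omega⟩, ⟨by simp only; omega, by simp only; omega⟩,
          fun h => h, Fin.ext ?_⟩
        simp only [pv]
        split_ifs <;> omega

end Pool.Agent.MP_4befb3_co
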