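import Mathlib
import Pool.Agent.Lib.MP_4befb3_co.Lower
import Pool.Agent.Lib.MP_4befb3_co.Scheme1
import Pool.Agent.Lib.MP_4befb3_co.Cert2

/-!
Exactly when the continuous complete graph is `(1/2, c)`-colourable.
-/

namespace Pool.Agent.MP_4befb3_co

lemma IsColourable.mono {V : Type*} [DecidableEq V] {G : SimpleGraph V} {r : ℝ} {c c' : ℕ}
    (h : IsColourable G r c) (hc : c ≤ c') : IsColourable G r c' := by
  obtain ⟨ℬ, h1, h2, f, hf⟩ := h
  refine ⟨ℬ, h1, h2, fun B => Fin.castLE hc (f B), ?_⟩
  intro B B' hne hmeet heq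
  exact hf B B' hne hmeet (Fin.castLE_injective hc heq)

lemma colourable_two : IsColourable (⊤ : SimpleGraph (Fin 2)) (1 / 2) 1 := by
  refine ⟨{hb 0 1 (1 / 2)}, ?_, ?_, fun _ => 0, ?_⟩
  · rintro B rfl
    exact ⟨edgePt 0 1 (1 / 2), edgePt_mem (by decide) (by norm_num) (by norm_num), rfl⟩
  · rw [Set.sUnion_singleton]
    apply Set.Subset.antisymm
    · intro q hq
      exact hq.1
    · intro q hq
      obtain ⟨u, v, t, huv, h0, h1, rfl⟩ := exists_rep hq
      have h01 : (0 : Fin 2) ≠ 1 := by decide
      have hcase : ∀ u v : Fin 2, u ≠ v → (u = 0 ∧ v = 1) ∨ (u = 1 ∧ v = 0) := by decide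
      rcases hcase u v huv with ⟨rfl, rfl⟩ | ⟨rfl, rfl⟩
      · rw [mem_hb_iff h01 h01.symm (by norm_num) (le_refl _) h0 (by linarith)]
        unfold reach
        rw [if_pos rfl]
        linarith
      · rw [edgePt_swap, mem_hb_iff h01 h01.symm (by norm_num) (le_refl _) (by linarith)
          (by linarith)]
        unfold reach
        rw [if_pos rfl]
        linarith
  · intro B B' hne
    exact absurd (Subtype.ext (B.2.trans B'.2.symm)) hne

lemma colourable_one_iff (c : ℕ) : IsColourable (⊤ : SimpleGraph (Fin 1)) (1 / 2) c ↔ 1 ≤ c := by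
  constructor
  · rintro ⟨ℬ, h1, h2, f, hf⟩
    have hq : vertexPt (0 : Fin 1) ∈ ⋃₀ ℬ := by
      rw [h2]
      exact vertexPt_mem 0
    obtain ⟨B, hB, _⟩ := hq
    have := (f ⟨B, hB⟩).2
    omega
  · intro hc
    refine IsColourable.mono ?_ hc
    refine ⟨{cBall (⊤ : SimpleGraph (Fin 1)) (vertexPt 0) (1 / 2)}, ?_, ?_, fun _ => 0, ?_⟩
    · rintro B rfl
      exact ⟨vertexPt 0, vertexPt_mem 0, rfl⟩
    · rw [Set.sUnion_singleton]
      apply Set.Subset.antisymm
      · intro q hq
        exact hq.1
      · intro q hq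
        refine ⟨hq, ?_⟩
        have hq0 : q = vertexPt 0 := by
          rcases hq with ⟨v, rfl⟩ | ⟨u, v, t, huv, _⟩
          · rw [Subsingleton.elim v 0]
          · exact absurd (Subsingleton.elim u v) huv.ne
        rw [hq0]
        exact pathDist_le_of_pathLen (PathLen.refl _ (vertexPt_mem 0)) (by norm_num)
    · intro B B' hne
      exact absurd (Subtype.ext (B.2.trans B'.2.symm)) hne

lemma colourable_zero (c : ℕ) : IsColourable (⊤ : SimpleGraph (Fin 0)) (1 / 2) c := by
  refine ⟨∅, ?_, ?_, fun B => absurd B.2 (Set.notMem_empty _), ?_⟩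
  · intro B hB
    exact absurd hB (Set.notMem_empty _)
  · rw [Set.sUnion_empty]
    symm
    rw [Set.eq_empty_iff_forall_notMem]
    rintro q (⟨v, _⟩ | ⟨u, _⟩)
    · exact v.elim0
    · exact u.elim0
  · intro B
    exact absurd B.2 (Set.notMem_empty _)

theorem colourable_iff {n : ℕ} (hn : 2 ≤ n) (c : ℕ) :
    IsColourable (⊤ : SimpleGraph (Fin n)) (1 / 2) c ↔
      n ≤ 2 * c ∨ n * (n - 1) + 3 * c ≤ 2 * c * (n - 1) + c ^ 2 := by
  haveI : Nontrivial (Fin n) := Fin.nontrivial_iff_two_le.2 hn
  constructor
  · intro h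
    have := lower_bound c h
    simpa using this
  · intro h
    by_cases h2c : n ≤ 2 * c
    · rcases hn.eq_or_lt with h2 | h3
      · subst h2
        exact colourable_two.mono (by omega)
      · exact (cert1 n c h3 h2c).colourable
    · have hineq : n * (n - 1) + 3 * c ≤ 2 * c * (n - 1) + c ^ 2 := by
        rcases h with h | h
        · exact absurd h h2c
        · exact h
      push Not at h2c
      obtain ⟨r, hr⟩ : ∃ r, n = 2 * c + r := ⟨n - 2 * c, by omega⟩
      have hr1 : 1 ≤ r := by omega
      have hc1 : 1 ≤ c := by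
        by_contra hcon
        have hc0 : c = 0 := by omega
        subst hc0
        simp only [mul_zero, add_zero, zero_mul, ne_eq, OfNat.ofNat_ne_zero, not_false_eq_true,
          zero_pow, nonpos_iff_eq_zero, mul_eq_zero] at hineq
        omega
      have hmain : r * r + 2 * c * r + 3 * c ≤ c * c + r := by
        obtain ⟨q, hq⟩ : ∃ q, r = q + 1 := ⟨r - 1, by omega⟩
        have e1 : n - 1 = 2 * c + q := by omega
        have e2 : n = 2 * c + q + 1 := by omega
        rw [e1, e2] at hineq
        subst hq
        nlinarith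
      obtain ⟨C⟩ := exists_cert2 hc1 hr1 hmain
      have hcard : Fintype.card (Fin n) = Fintype.card (VV c r) := by
        simp [hr]
        ring
      exact (C.map (Fintype.equivOfCardEq hcard)).colourable

/-- The value of the `1/2`-chromatic number. -/
theorem rChromatic_complete (n : ℕ) :
    rChromatic (⊤ : SimpleGraph (Fin n)) (1 / 2) =
      min ⌈(n : ℝ) / 2⌉₊ ⌈(5 - 2 * (n : ℝ) + √(8 * (n : ℝ) ^ 2 - 24 * n + 25)) / 2⌉₊ := by
  set X : ℝ := (5 - 2 * (n : ℝ) + √(8 * (n : ℝ) ^ 2 - 24 * n + 25)) / 2 with hX
  have key : ∀ c : ℕ, IsColourable (⊤ : SimpleGraph (Fin n)) (1 / 2) c ↔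
      min ⌈(n : ℝ) / 2⌉₊ ⌈X⌉₊ ≤ c := by
    intro c
    rw [min_le_iff, Nat.ceil_le, Nat.ceil_le]
    have hhalf : (n : ℝ) / 2 ≤ c ↔ n ≤ 2 * c := by
      rw [div_le_iff₀ (by norm_num)]
      constructor
      · intro h
        have : (n : ℝ) ≤ ((c * 2 : ℕ) : ℝ) := by push_cast; exact h
        have := Nat.cast_le.1 this
        omega
      · intro h
        have : (n : ℝ) ≤ ((2 * c : ℕ) : ℝ) := Nat.cast_le.2 h
        push_cast at this
        linarith
    have hXc : X ≤ c ↔ (0 : ℝ) ≤ 2 * c + 2 * n - 5 ∧
        8 * (n : ℝ) ^ 2 - 24 * n + 25 ≤ (2 * c + 2 * n - 5) ^ 2 := by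
      rw [← Real.sqrt_le_iff, hX]
      constructor <;> intro h <;> linarith
    rw [hhalf, hXc]
    match n, hX with
    | 0, _ =>
      constructor
      · intro _
        left
        omega
      · intro _
        exact colourable_zero c
    | 1, _ =>
      rw [colourable_one_iff]
      constructor
      · intro h
        left
        omega
      · rintro (h | ⟨h, _⟩)
        · omega
        · by_contra hcon
          have : c = 0 := by omega
          subst this
          norm_num at h
    | n + 2, _ =>
      rw [colourable_iff (by omega)]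
      constructor
      · rintro (h | h)
        · exact Or.inl h
        · by_cases h2 : n + 2 ≤ 2 * c
          · exact Or.inl h2
          · right
            have h3 : (((n + 2) * (n + 2 - 1) + 3 * c : ℕ) : ℝ) ≤
                ((2 * c * (n + 2 - 1) + c ^ 2 : ℕ) : ℝ) := Nat.cast_le.2 h
            have e1 : n + 2 - 1 = n + 1 := rfl
            rw [e1] at h3 h
            push_cast at h3 ⊢
            have hc0 : (0 : ℝ) ≤ c := by positivity
            have hn0 : (0 : ℝ) ≤ n := by positivity
            refine ⟨?_, by nlinarith⟩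
            by_cases hn1 : n = 0
            · subst hn1
              have : 1 ≤ c := by
                by_contra hcon
                have : c = 0 := by omega
                subst this
                simp at h
              have : (1 : ℝ) ≤ c := by exact_mod_cast this
              push_cast
              linarith
            · have : 1 ≤ n := by omega
              have : (1 : ℝ) ≤ n := by exact_mod_cast this
              linarith
      · rintro (h | ⟨_, h⟩)
        · exact Or.inl h
        · right
          have e1 : n + 2 - 1 = n + 1 := rfl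
          rw [e1]
          have h3 : (((n + 2) * (n + 1) + 3 * c : ℕ) : ℝ) ≤
                ((2 * c * (n + 1) + c ^ 2 : ℕ) : ℝ) := by
            push_cast at h ⊢
            nlinarith
          exact Nat.cast_le.1 h3
  unfold rChromatic
  have hset : {c : ℕ | IsColourable (⊤ : SimpleGraph (Fin n)) (1 / 2) c} =
      Set.Ici (min ⌈(n : ℝ) / 2⌉₊ ⌈X⌉₊) := by
    ext c
    exact key c
  rw [hset, csInf_Ici]

end Pool.Agent.MP_4befb3_co
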